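import Pool.Agent.W930.CG.Cls
import Pool.Agent.W240.CG.Grp

/-!
# Class groups from ideals whose `M`-th powers are principal

`𝔄_i ^ M = (g_i)` for `i < N` with `g_i` independent modulo `ℓ`-th powers for all primes `ℓ ∣ M` gives
`(ℤ/M)^R` in the class group, `R = N - rank of the units - 1`.
-/

set_option autoImplicit false

namespace Pool.Agent.X288.UR

open NumberField nonZeroDivisors
open Pool.Agent.W930.CG (pi pi_eq_one unit_of_toPrincipal)

theorem units_mod (K : Type) [Field K] [NumberField K] : ∃ ζ : (𝓞 K)ˣ, ∀ (ℓ : ℕ), 0 < ℓ →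
    ∀ u : (𝓞 K)ˣ, ∃ (r : Fin (Units.rank K) → Fin ℓ) (a : Fin ℓ) (v : (𝓞 K)ˣ),
      u = ζ ^ (a : ℕ) * (∏ i, Units.fundSystem K i ^ (r i : ℕ)) * v ^ ℓ := by
  obtain ⟨ζ, hζ⟩ := IsCyclic.exists_generator (α := Units.torsion K)
  refine ⟨(ζ : (𝓞 K)ˣ), fun ℓ hℓ u => ?_⟩
  obtain ⟨⟨z, e⟩, h, -⟩ := Units.exist_unique_eq_mul_prod K u
  obtain ⟨a, ha⟩ := Subgroup.mem_zpowers_iff.1 (hζ z)
  have hℓZ : (0 : ℤ) < ℓ := by exact_mod_cast hℓ
  have key : ∀ n : ℤ, ∃ (r : Fin ℓ) (q : ℤ), n = (r : ℕ) + ℓ * q := by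
    intro n
    refine ⟨⟨(n % ℓ).toNat, ?_⟩, n / ℓ, ?_⟩
    · have h1 := Int.emod_lt_of_pos n hℓZ
      have h2 := Int.emod_nonneg n hℓZ.ne'
      omega
    · have h2 := Int.emod_nonneg n hℓZ.ne'
      have h3 := Int.emod_add_mul_ediv n ℓ
      simp only [Int.toNat_of_nonneg h2]
      omega
  choose r q hrq using key
  refine ⟨fun i => r (e i), r a, (ζ : (𝓞 K)ˣ) ^ (q a) * ∏ i, Units.fundSystem K i ^ (q (e i)), ?_⟩
  have h1 : ((z : Units.torsion K) : (𝓞 K)ˣ) = (ζ : (𝓞 K)ˣ) ^ (r a : ℕ) * ((ζ : (𝓞 K)ˣ) ^ (q a)) ^ ℓ := by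
    rw [← ha]
    push_cast
    conv_lhs => rw [hrq a]
    rw [zpow_add, zpow_natCast, mul_comm (ℓ : ℤ), zpow_mul, zpow_natCast]
  have h2 : ∏ i, Units.fundSystem K i ^ (e i) =
      (∏ i, Units.fundSystem K i ^ (r (e i) : ℕ)) * (∏ i, Units.fundSystem K i ^ (q (e i))) ^ ℓ := by
    rw [← Finset.prod_pow, ← Finset.prod_mul_distrib]
    refine Finset.prod_congr rfl fun i _ => ?_
    conv_lhs => rw [hrq (e i)]
    rw [zpow_add, zpow_natCast, mul_comm (ℓ : ℤ), zpow_mul, zpow_natCast]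
  have h3 : u = (z : (𝓞 K)ˣ) * ∏ i, Units.fundSystem K i ^ (e i) := h
  rw [h3, h1, h2, mul_pow]
  rw [mul_mul_mul_comm]

theorem crit (K : Type) [Field K] [NumberField K] (N M R : ℕ) (hM : 2 ≤ M)
    (hR : R + (Units.rank K + 1) ≤ N) (g : Fin N → Kˣ)
    (hI : ∀ i, ∃ I : (FractionalIdeal (𝓞 K)⁰ K)ˣ, I ^ M = toPrincipalIdeal (𝓞 K) K (g i))
    (hind : ∀ ℓ : ℕ, ℓ.Prime → ℓ ∣ M → ∀ (e : Fin N → ℤ) (y : Kˣ), ∏ i, g i ^ e i = y ^ ℓ →
      ∀ i, (ℓ : ℤ) ∣ e i) :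
    ∃ f : Multiplicative (Fin R → ZMod M) →* ClassGroup (𝓞 K), Function.Injective f := by
  choose I hI using hI
  refine Pool.Agent.W240.CG.grp (ClassGroup (𝓞 K)) N M (Units.rank K + 1) R hM hR
    (fun i => pi K (I i)) ?_ ?_
  · intro i
    rw [← map_pow, hI, pi_eq_one]
    exact ⟨_, rfl⟩
  · intro ℓ hℓ hℓm
    have : Fact ℓ.Prime := ⟨hℓ⟩
    obtain ⟨ζ, hζ⟩ := units_mod K
    set ι : (𝓞 K)ˣ →* Kˣ := Units.map (algebraMap (𝓞 K) K).toMonoidHom with hι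
    have hmul : M / ℓ * ℓ = M := Nat.div_mul_cancel hℓm
    have key : ∀ e : Fin N → ZMod ℓ, ∏ i, pi K (I i) ^ ((M / ℓ) * (e i).val) = 1 →
        ∃ (r : Fin (Units.rank K + 1) → Fin ℓ) (w : Kˣ),
          ∏ i, g i ^ (e i).val = ι (ζ ^ (r (Fin.last _) : ℕ) *
            ∏ i : Fin (Units.rank K), Units.fundSystem K i ^ (r (Fin.castSucc i) : ℕ)) * w ^ ℓ := by
      intro e he
      have h1 : pi K (∏ i, I i ^ ((M / ℓ) * (e i).val)) = 1 := by
        rw [map_prod, ← he]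
        exact Finset.prod_congr rfl fun i _ => map_pow _ _ _
      obtain ⟨α, hα⟩ := pi_eq_one.1 h1
      have h2 : toPrincipalIdeal (𝓞 K) K (∏ i, g i ^ (e i).val) =
          toPrincipalIdeal (𝓞 K) K (α ^ ℓ) := by
        rw [map_pow, hα, map_prod, ← Finset.prod_pow]
        refine Finset.prod_congr rfl fun i _ => ?_
        rw [map_pow, ← hI, ← pow_mul, ← pow_mul]
        congr 1
        calc M * (e i).val = (M / ℓ * ℓ) * (e i).val := by rw [hmul]
          _ = _ := by ring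
      have h3 : toPrincipalIdeal (𝓞 K) K ((∏ i, g i ^ (e i).val) * (α ^ ℓ)⁻¹) = 1 := by
        rw [map_mul, map_inv, h2, mul_inv_cancel]
      obtain ⟨u, hu⟩ := unit_of_toPrincipal h3
      have h4 : ∏ i, g i ^ (e i).val = ι u * α ^ ℓ := by
        rw [hι, hu, inv_mul_cancel_right]
      obtain ⟨r, a, v, h5⟩ := hζ ℓ hℓ.pos u
      refine ⟨Fin.snoc (α := fun _ => Fin ℓ) r a, ι v * α, ?_⟩
      rw [h4, h5, map_mul, map_pow, mul_pow, mul_assoc]
      simp only [Fin.snoc_last, Fin.snoc_castSucc]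
    classical
    choose! r w hrw using key
    have hinj : Set.InjOn r {e : Fin N → ZMod ℓ | ∏ i, pi K (I i) ^ ((M / ℓ) * (e i).val) = 1} := by
      intro e he e' he' hr
      have h1 := hrw e he
      have h2 := hrw e' he'
      rw [hr] at h1
      set F := ι (ζ ^ (r e' (Fin.last _) : ℕ) *
            ∏ i : Fin (Units.rank K), Units.fundSystem K i ^ (r e' (Fin.castSucc i) : ℕ)) with hF
      have h3 : ∏ i, g i ^ (((e i).val : ℤ) - ((e' i).val : ℤ)) =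
          (∏ i, g i ^ (e i).val) * (∏ i, g i ^ (e' i).val)⁻¹ := by
        rw [← Finset.prod_inv_distrib, ← Finset.prod_mul_distrib]
        refine Finset.prod_congr rfl fun i _ => ?_
        rw [zpow_sub, zpow_natCast, zpow_natCast]
      have h4 := hind ℓ hℓ hℓm (fun i => ((e i).val : ℤ) - ((e' i).val : ℤ)) (w e * (w e')⁻¹) (by
        rw [h3, mul_pow, inv_pow, h1, h2, mul_inv, mul_mul_mul_comm, mul_inv_cancel, one_mul])
      funext i
      have h5 := h4 i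
      have h6 : (((e i).val : ℤ) : ZMod ℓ) = (((e' i).val : ℤ) : ZMod ℓ) := by
        rw [← sub_eq_zero, ← Int.cast_sub]
        exact (ZMod.intCast_zmod_eq_zero_iff_dvd _ _).2 h5
      simpa using h6
    have h7 := Set.ncard_le_ncard_of_injOn (s := {e : Fin N → ZMod ℓ |
      ∏ i, pi K (I i) ^ ((M / ℓ) * (e i).val) = 1}) (t := Set.univ) r (fun _ _ => Set.mem_univ _)
      hinj Set.finite_univ
    rw [Set.ncard_univ, Nat.card_eq_fintype_card, Fintype.card_fun, Fintype.card_fin,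
      Fintype.card_fin] at h7
    exact h7

end Pool.Agent.X288.UR
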