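import Pool.Agent.X288.UR.Four
import Pool.Agent.X288.UR.Crit
import Pool.Agent.W289.CG.Core

/-!
# Quadratic fields with `(ℤ/4)^r` in the class group
-/

set_option autoImplicit false

namespace Pool.Agent.X288.UR

open NumberField nonZeroDivisors Polynomial

/-! ### the primes -/

theorem exP (k : ℕ) : ∃ p : ℕ, k ≠ 0 → p.Prime ∧ k < p ∧ p ≡ 1 [MOD k] := by
  by_cases hk : k = 0
  · exact ⟨0, fun h => absurd hk h⟩
  · obtain ⟨p, h1, h2, h3⟩ := Nat.exists_prime_gt_modEq_one k hk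
    exact ⟨p, fun _ => ⟨h1, h2, h3⟩⟩

noncomputable def nextP (k : ℕ) : ℕ := Classical.choose (exP k)

noncomputable def Mseq : ℕ → ℕ
  | 0 => 4
  | n + 1 => Mseq n * nextP (Mseq n)

noncomputable def pseq (n : ℕ) : ℕ := nextP (Mseq n)

theorem nextP_spec {k : ℕ} (hk : k ≠ 0) : (nextP k).Prime ∧ k < nextP k ∧ nextP k ≡ 1 [MOD k] :=
  Classical.choose_spec (exP k) hk

theorem Mseq_ne (n : ℕ) : Mseq n ≠ 0 := by
  induction n with
  | zero => exact four_ne_zero
  | succ n ih => exact Nat.mul_ne_zero ih (nextP_spec ih).1.ne_zero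

theorem pseq_prime (n : ℕ) : (pseq n).Prime := (nextP_spec (Mseq_ne n)).1

theorem four_dvd (n : ℕ) : 4 ∣ Mseq n := by
  induction n with
  | zero => exact dvd_rfl
  | succ n ih => exact ih.mul_right _

theorem pseq_mod (n : ℕ) : pseq n % 4 = 1 := by
  have h1 : pseq n ≡ 1 [MOD 4] := (nextP_spec (Mseq_ne n)).2.2.of_dvd (four_dvd n)
  exact h1

theorem pseq_dvd {i n : ℕ} (h : i < n) : pseq i ∣ Mseq n := by
  induction n with
  | zero => omega
  | succ n ih =>
    rcases Nat.lt_succ_iff_lt_or_eq.1 h with h | rfl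
    · exact (ih h).mul_right _
    · exact Dvd.intro_left _ rfl

theorem pseq_lt {i j : ℕ} (h : i < j) : pseq i < pseq j :=
  lt_of_le_of_lt (Nat.le_of_dvd (Nat.pos_of_ne_zero (Mseq_ne j)) (pseq_dvd h)) (nextP_spec (Mseq_ne j)).2.1

theorem pseq_inj {i j : ℕ} (h : pseq i = pseq j) : i = j := by
  rcases lt_trichotomy i j with h1 | h1 | h1
  · exact absurd h (pseq_lt h1).ne
  · exact h1
  · exact absurd h.symm (pseq_lt h1).ne

theorem pseq_sq {i j : ℕ} (hij : i ≠ j) : ∃ t : ℤ, (pseq i : ℤ) ∣ t ^ 2 - pseq j := by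
  have aux : ∀ a b : ℕ, a.Prime → IsSquare ((b : ℕ) : ZMod a) → ∃ t : ℤ, (a : ℤ) ∣ t ^ 2 - b := by
    intro a b ha h
    obtain ⟨r, hr⟩ := h
    have : NeZero a := ⟨ha.ne_zero⟩
    refine ⟨(r.val : ℤ), ?_⟩
    rw [← ZMod.intCast_zmod_eq_zero_iff_dvd]
    push_cast
    rw [ZMod.natCast_zmod_val, hr]
    ring
  have key : ∀ a b : ℕ, a < b → IsSquare ((pseq b : ℕ) : ZMod (pseq a)) := by
    intro a b hab
    refine ⟨1, ?_⟩
    have h1 : pseq b ≡ 1 [MOD pseq a] := (nextP_spec (Mseq_ne b)).2.2.of_dvd (pseq_dvd hab)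
    have h2 := (ZMod.natCast_eq_natCast_iff _ _ _).2 h1
    rw [h2]
    simp
  have : Fact (pseq i).Prime := ⟨pseq_prime i⟩
  have : Fact (pseq j).Prime := ⟨pseq_prime j⟩
  apply aux _ _ (pseq_prime i)
  rcases lt_or_gt_of_ne hij with h | h
  · exact key i j h
  · have h2 : pseq j ≠ 2 := by
      intro h2
      have := pseq_mod j
      omega
    exact (ZMod.exists_sq_eq_prime_iff_of_mod_four_eq_one (pseq_mod i) h2).2 (key j i h)

theorem pseq_norm {i j : ℕ} (hij : i ≠ j) :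
    ∃ x y z : ℤ, y ≠ 0 ∧ z ^ 2 - pseq i * x ^ 2 = pseq j * y ^ 2 :=
  legendre (pseq_prime i) (pseq_prime j) (fun h => hij (pseq_inj h)) (pseq_sq (Ne.symm hij))
    (pseq_sq hij)

/-! ### elements of quadratic fields -/

theorem rep2 (K : Type) [Field K] [NumberField K] (s : K) (D : ℚ) (hs : s ^ 2 = -(D : K))
    (hgen : IntermediateField.adjoin ℚ {s} = ⊤) (y : K) : ∃ a b : ℚ, y = a + b * s := by
  have hint : IsIntegral ℚ s := Algebra.IsIntegral.isIntegral s
  have h1 : y ∈ (IntermediateField.adjoin ℚ {s}).toSubalgebra := by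
    rw [hgen]
    exact Algebra.mem_top
  rw [IntermediateField.adjoin_simple_toSubalgebra_of_isAlgebraic hint.isAlgebraic] at h1
  induction h1 using Algebra.adjoin_induction with
  | mem x hx =>
    rw [Set.mem_singleton_iff.1 hx]
    exact ⟨0, 1, by simp⟩
  | algebraMap r => exact ⟨r, 0, by simp⟩
  | add x y _ _ h1 h2 =>
    obtain ⟨a, b, rfl⟩ := h1
    obtain ⟨c, d, rfl⟩ := h2
    exact ⟨a + c, b + d, by push_cast; ring⟩
  | mul x y _ _ h1 h2 =>
    obtain ⟨a, b, rfl⟩ := h1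
    obtain ⟨c, d, rfl⟩ := h2
    refine ⟨a * c - b * d * D, a * d + b * c, ?_⟩
    push_cast
    linear_combination (b * d : K) * hs

theorem sq_rat (K : Type) [Field K] [NumberField K] (s : K) (D : ℚ) (hD : 0 < D)
    (hs : s ^ 2 = -(D : K)) (hgen : IntermediateField.adjoin ℚ {s} = ⊤) (P : ℚ) (hP : 0 < P) (y : K)
    (hy : y ^ 2 = P) : ∃ a : ℚ, a ^ 2 = P := by
  obtain ⟨a, b, rfl⟩ := rep2 K s D hs hgen y
  have h1 : 2 * (a : K) * b * s = ((P - a ^ 2 + D * b ^ 2 : ℚ) : K) := by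
    push_cast
    linear_combination hy - (b : K) ^ 2 * hs
  by_cases hab : a * b = 0
  · rcases mul_eq_zero.1 hab with rfl | rfl
    · exfalso
      have h2 : ((-(D * b ^ 2) : ℚ) : K) = ((P : ℚ) : K) := by
        push_cast
        push_cast at hy
        linear_combination hy - (b : K) ^ 2 * hs
      have h3 : -(D * b ^ 2) = P := by exact_mod_cast h2
      have h4 : 0 ≤ D * b ^ 2 := by positivity
      linarith
    · refine ⟨a, ?_⟩
      have h2 : ((a ^ 2 : ℚ) : K) = ((P : ℚ) : K) := by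
        push_cast
        push_cast at hy
        linear_combination hy
      exact_mod_cast h2
  · exfalso
    have habK : 2 * (a : K) * b ≠ 0 := by
      have : (2 * a * b : ℚ) ≠ 0 := by
        rw [mul_assoc]
        exact mul_ne_zero two_ne_zero hab
      exact_mod_cast this
    have h2 : s = (((P - a ^ 2 + D * b ^ 2) / (2 * a * b) : ℚ) : K) := by
      have h3 : s = (2 * (a : K) * b * s) / (2 * (a : K) * b) :=
        (mul_div_cancel_left₀ s habK).symm
      rw [h3, h1]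
      push_cast
      ring
    set r : ℚ := (P - a ^ 2 + D * b ^ 2) / (2 * a * b) with hr
    rw [h2] at hs
    have h4 : r ^ 2 = -D := by exact_mod_cast hs
    have h5 : 0 ≤ r ^ 2 := sq_nonneg r
    linarith

end Pool.Agent.X288.UR
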