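import Mathlib

/-!
# A radical extension of degree `e` in which given primes become `e`-th powers
-/

set_option autoImplicit false

namespace Pool.Agent.X288.UR

open NumberField Polynomial

/-- an element which is exactly divisible by the members of a finite set of primes -/
theorem exists_elt (k : Type) [Field k] [NumberField k] (S : Finset (Ideal (𝓞 k)))
    (hS : ∀ q ∈ S, q.IsMaximal ∧ q ≠ ⊥) :
    ∃ α : 𝓞 k, ∀ q ∈ S, α ∈ q ∧ α ∉ q ^ 2 ∧
      ∃ c : Ideal (𝓞 k), Ideal.span {α} = q * c ∧ IsCoprime q c := by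
  classical
  set A : Ideal (𝓞 k) := ∏ q ∈ S, q with hA
  have hA0 : A ≠ 0 := by
    rw [hA, Finset.prod_ne_zero_iff]
    exact fun q hq => (hS q hq).2
  obtain ⟨α, hα⟩ := IsDedekindDomain.exists_sup_span_eq (I := A ^ 2) (J := A)
    (Ideal.pow_le_self two_ne_zero) (pow_ne_zero 2 hA0)
  have hαA : α ∈ A := by
    rw [← hα]
    exact Ideal.mem_sup_right (Ideal.mem_span_singleton_self α)
  refine ⟨α, fun q hq => ?_⟩
  have hqm := (hS q hq).1
  have hqp : Prime q := Ideal.prime_of_isPrime (hS q hq).2 hqm.isPrime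
  have hAq : A ≤ q := by
    rw [hA]
    exact Ideal.le_of_dvd (Finset.dvd_prod_of_mem _ hq)
  have hαq : α ∈ q := hAq hαA
  have hq2 : ¬ A ≤ q ^ 2 := by
    intro h
    have h1 : q ^ 2 ∣ A := Ideal.dvd_iff_le.2 h
    rw [hA, ← Finset.mul_prod_erase S _ hq, sq] at h1
    have h2 : q ∣ ∏ x ∈ S.erase q, x := (mul_dvd_mul_iff_left hqp.ne_zero).1 h1
    obtain ⟨r, hr, hqr⟩ := (Prime.dvd_finset_prod_iff hqp _).1 h2
    obtain ⟨hrq, hrS⟩ := Finset.mem_erase.1 hr
    have h3 : r ≤ q := Ideal.le_of_dvd hqr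
    exact hrq ((hS r hrS).1.eq_of_le hqm.ne_top h3)
  have hα2 : α ∉ q ^ 2 := by
    intro h
    apply hq2
    rw [← hα]
    refine sup_le ?_ ?_
    · exact Ideal.pow_right_mono hAq 2
    · rw [Ideal.span_singleton_le_iff_mem]
      exact h
  refine ⟨hαq, hα2, ?_⟩
  obtain ⟨c, hc⟩ : q ∣ Ideal.span {α} := Ideal.dvd_span_singleton.2 hαq
  refine ⟨c, hc, ?_⟩
  have hcq : ¬ q ∣ c := by
    intro h
    apply hα2
    have h1 : q ^ 2 ∣ Ideal.span {α} := by
      rw [hc, sq]
      exact mul_dvd_mul_left q h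
    exact Ideal.dvd_span_singleton.1 h1
  rw [Ideal.isCoprime_iff_sup_eq]
  by_contra hne
  have h2 := hqm.eq_of_le hne le_sup_left
  apply hcq
  apply Ideal.dvd_iff_le.2
  rw [h2]
  exact le_sup_right

theorem exists_ext (k : Type) [Field k] [NumberField k] (S : Finset (Ideal (𝓞 k)))
    (hS : ∀ q ∈ S, q.IsMaximal ∧ q ≠ ⊥) (hne : S.Nonempty) (e : ℕ) (he : 1 ≤ e) :
    ∃ (K : Type) (_ : Field K) (_ : NumberField K) (_ : Algebra k K), Module.finrank k K = e ∧
      ∀ q ∈ S, ∃ Q : Ideal (𝓞 K), Q ^ e = q.map (algebraMap (𝓞 k) (𝓞 K)) := by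
  obtain ⟨α, hα⟩ := exists_elt k S hS
  obtain ⟨q₀, hq₀⟩ := hne
  have hirr0 : Irreducible (X ^ e - C α : (𝓞 k)[X]) := by
    obtain ⟨h1, h2, -⟩ := hα q₀ hq₀
    have hmon : (X ^ e - C α : (𝓞 k)[X]).Monic := monic_X_pow_sub_C α (by omega)
    have hdeg : (X ^ e - C α : (𝓞 k)[X]).natDegree = e := natDegree_X_pow_sub_C
    have hE : (X ^ e - C α : (𝓞 k)[X]).IsEisensteinAt q₀ := by
      refine ⟨?_, ?_, ?_⟩
      · rw [hmon.leadingCoeff]
        exact fun h => (hS q₀ hq₀).1.ne_top ((Ideal.eq_top_iff_one _).2 h)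
      · intro n hn
        rw [hdeg] at hn
        rw [coeff_sub, coeff_X_pow, if_neg hn.ne, coeff_C]
        split_ifs
        · rw [zero_sub]
          exact q₀.neg_mem h1
        · rw [sub_zero]
          exact q₀.zero_mem
      · rw [coeff_sub, coeff_X_pow, if_neg (by omega), coeff_C_zero, zero_sub]
        intro h
        exact h2 (by simpa using (q₀ ^ 2).neg_mem h)
    exact hE.irreducible (hS q₀ hq₀).1.isPrime hmon.isPrimitive (by omega)
  have hirr : Irreducible (X ^ e - C (α : k) : k[X]) := by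
    have hmon : (X ^ e - C α : (𝓞 k)[X]).Monic := monic_X_pow_sub_C α (by omega)
    have h1 := (hmon.irreducible_iff_irreducible_map_fraction_map (K := k)).1 hirr0
    rw [Polynomial.map_sub, Polynomial.map_pow, map_X, map_C] at h1
    exact h1
  have : Fact (Irreducible (X ^ e - C (α : k) : k[X])) := ⟨hirr⟩
  let f : k[X] := X ^ e - C (α : k)
  have hfin : FiniteDimensional k (AdjoinRoot f) := (AdjoinRoot.powerBasis hirr.ne_zero).finite
  have hchar : CharZero (AdjoinRoot f) := charZero_of_injective_algebraMap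
    (algebraMap k (AdjoinRoot f)).injective
  have hfinQ : FiniteDimensional ℚ (AdjoinRoot f) := FiniteDimensional.trans ℚ k (AdjoinRoot f)
  have hK : NumberField (AdjoinRoot f) := {
    to_charZero := hchar
    to_finiteDimensional := hfinQ }
  refine ⟨AdjoinRoot f, inferInstance, hK, inferInstance, ?_, ?_⟩
  · rw [(AdjoinRoot.powerBasis hirr.ne_zero).finrank, AdjoinRoot.powerBasis_dim]
    exact natDegree_X_pow_sub_C
  · have hroot : (AdjoinRoot.root f) ^ e = algebraMap k (AdjoinRoot f) (α : k) := by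
      have h1 := AdjoinRoot.eval₂_root f
      simp only [f, eval₂_sub, eval₂_pow, eval₂_X, eval₂_C] at h1
      rw [sub_eq_zero] at h1
      exact h1
    have hint : IsIntegral ℤ (AdjoinRoot.root f) := by
      have h1 : IsIntegral ℤ ((AdjoinRoot.root f) ^ e) := by
        rw [hroot]
        exact (RingOfIntegers.isIntegral_coe α).algebraMap
      exact IsIntegral.of_pow (by omega) h1
    set θ : 𝓞 (AdjoinRoot f) := ⟨AdjoinRoot.root f, hint⟩ with hθ
    have hθe : θ ^ e = algebraMap (𝓞 k) (𝓞 (AdjoinRoot f)) α := by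
      apply RingOfIntegers.ext
      exact hroot
    intro q hq
    obtain ⟨-, -, c, hc, hcop⟩ := hα q hq
    have h1 : q.map (algebraMap (𝓞 k) (𝓞 (AdjoinRoot f))) *
        c.map (algebraMap (𝓞 k) (𝓞 (AdjoinRoot f))) = (Ideal.span {θ}) ^ e := by
      rw [← Ideal.map_mul, ← hc, Ideal.map_span, Set.image_singleton, Ideal.span_singleton_pow, hθe]
    have h2 : IsCoprime (q.map (algebraMap (𝓞 k) (𝓞 (AdjoinRoot f))))
        (c.map (algebraMap (𝓞 k) (𝓞 (AdjoinRoot f)))) := by
      rw [Ideal.isCoprime_iff_sup_eq] at hcop ⊢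
      rw [← Ideal.map_sup, hcop, Ideal.map_top]
    obtain ⟨Q, hQ⟩ := exists_eq_pow_of_mul_eq_pow_of_coprime h2 h1
    exact ⟨Q, hQ.symm⟩

end Pool.Agent.X288.UR
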