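import Pool.Agent.X288.UR.Leg

/-!
# Ideals of order four
-/

set_option autoImplicit false

namespace Pool.Agent.X288.UR

/-- a solution with a nonzero `y` gives a primitive one -/
theorem primitive {p D : ℤ} (h : ∃ x y z : ℤ, y ≠ 0 ∧ z ^ 2 - p * x ^ 2 = D * y ^ 2) :
    ∃ x y z : ℤ, y ≠ 0 ∧ z ^ 2 - p * x ^ 2 = D * y ^ 2 ∧
      ∀ r : ℤ, Prime r → r ∣ x → r ∣ y → ¬ r ∣ z := by
  classical
  have hex : ∃ n : ℕ, ∃ x y z : ℤ, y ≠ 0 ∧ z ^ 2 - p * x ^ 2 = D * y ^ 2 ∧ y.natAbs = n := by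
    obtain ⟨x, y, z, hy, h⟩ := h
    exact ⟨y.natAbs, x, y, z, hy, h, rfl⟩
  obtain ⟨x, y, z, hy, h1, h2⟩ := Nat.find_spec hex
  refine ⟨x, y, z, hy, h1, ?_⟩
  rintro r hr ⟨x', rfl⟩ ⟨y', rfl⟩ ⟨z', rfl⟩
  have hr0 : r ≠ 0 := hr.ne_zero
  have hy' : y' ≠ 0 := right_ne_zero_of_mul hy
  have h3 : z' ^ 2 - p * x' ^ 2 = D * y' ^ 2 := by
    have : r ^ 2 * (z' ^ 2 - p * x' ^ 2) = r ^ 2 * (D * y' ^ 2) := by linear_combination h1
    exact mul_left_cancel₀ (pow_ne_zero 2 hr0) this
  have h4 := Nat.find_min' hex ⟨x', y', z', hy', h3, rfl⟩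
  rw [← h2, Int.natAbs_mul] at h4
  have h5 : 2 ≤ r.natAbs := (Int.prime_iff_natAbs_prime.1 hr).two_le
  have h6 : 0 < y'.natAbs := Int.natAbs_pos.2 hy'
  nlinarith

/-- products of norms -/
theorem norm_prod {ι : Type} [DecidableEq ι] (p : ℤ) (q : ι → ℤ) (s : Finset ι)
    (h : ∀ j ∈ s, ∃ x y z : ℤ, y ≠ 0 ∧ z ^ 2 - p * x ^ 2 = q j * y ^ 2) :
    ∃ x y z : ℤ, y ≠ 0 ∧ z ^ 2 - p * x ^ 2 = (∏ j ∈ s, q j) * y ^ 2 := by
  induction s using Finset.induction_on with
  | empty => exact ⟨0, 1, 1, one_ne_zero, by simp⟩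
  | insert a s has ih =>
    obtain ⟨x, y, z, hy, h1⟩ := ih fun j hj => h j (Finset.mem_insert_of_mem hj)
    obtain ⟨x', y', z', hy', h2⟩ := h a (Finset.mem_insert_self a s)
    refine ⟨x * z' + x' * z, y' * y, z * z' + p * x * x', mul_ne_zero hy' hy, ?_⟩
    rw [Finset.prod_insert has]
    calc (z * z' + p * x * x') ^ 2 - p * (x * z' + x' * z) ^ 2 =
        (z' ^ 2 - p * x' ^ 2) * (z ^ 2 - p * x ^ 2) := by ring
      _ = _ := by rw [h1, h2]; ring

theorem coprimes {p D x y z : ℤ} (hp : Prime p) (hD : Squarefree D) (hpD : ¬ p ∣ D)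
    (hp4 : p % 4 = 1) (hD4 : D % 4 = 1) (h : z ^ 2 - p * x ^ 2 = D * y ^ 2)
    (hprim : ∀ r : ℤ, Prime r → r ∣ x → r ∣ y → ¬ r ∣ z) :
    IsCoprime z (2 * p * x) ∧ IsCoprime y p := by
  have hpz : ¬ p ∣ z := by
    intro h1
    have h2 : p ∣ D * y ^ 2 := by
      rw [← h]
      exact dvd_sub (dvd_pow h1 two_ne_zero) (Dvd.intro _ rfl)
    have h3 : p ∣ y := hp.dvd_of_dvd_pow ((hp.dvd_or_dvd h2).resolve_left hpD)
    obtain ⟨z', rfl⟩ := h1
    obtain ⟨y', rfl⟩ := h3
    have h4 : p * x ^ 2 = p * (p * (z' ^ 2 - D * y' ^ 2)) := by linear_combination -h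
    have h5 := mul_left_cancel₀ hp.ne_zero h4
    have h6 : p ∣ x := hp.dvd_of_dvd_pow ⟨_, h5⟩
    exact hprim p hp h6 (Dvd.intro _ rfl) (Dvd.intro _ rfl)
  have hpy : ¬ p ∣ y := by
    intro h1
    apply hpz
    have h2 : p ∣ z ^ 2 := by
      have : z ^ 2 = p * x ^ 2 + D * y ^ 2 := by linarith
      rw [this]
      exact dvd_add (Dvd.intro _ rfl) (Dvd.dvd.mul_left (dvd_pow h1 two_ne_zero) D)
    exact hp.dvd_of_dvd_pow h2
  have h2z : ¬ (2 : ℤ) ∣ z := by
    intro h1
    obtain ⟨a, rfl⟩ := h1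
    have hxy : x % 2 = 0 ∧ y % 2 = 0 := by
      have e1 : (2 * a) ^ 2 = p * x ^ 2 + D * y ^ 2 := by linarith
      obtain ⟨p', hp'⟩ : ∃ p', p = 4 * p' + 1 := ⟨p / 4, by omega⟩
      obtain ⟨D', hD'⟩ : ∃ D', D = 4 * D' + 1 := ⟨D / 4, by omega⟩
      rw [hp', hD'] at e1
      rcases Int.even_or_odd' x with ⟨x', hx' | hx'⟩ <;> rcases Int.even_or_odd' y with ⟨y', hy' | hy'⟩
      · omega
      · exfalso
        rw [hx', hy'] at e1
        ring_nf at e1
        omega
      · exfalso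
        rw [hx', hy'] at e1
        ring_nf at e1
        omega
      · exfalso
        rw [hx', hy'] at e1
        ring_nf at e1
        omega
    exact hprim 2 Int.prime_two (Int.dvd_of_emod_eq_zero hxy.1) (Int.dvd_of_emod_eq_zero hxy.2)
      (Dvd.intro _ rfl)
  have hzx : IsCoprime z x := by
    refine isCoprime_of_prime_dvd ?_ ?_
    · rintro ⟨rfl, -⟩
      exact hpz (dvd_zero p)
    · intro r hr h1 h2
      obtain ⟨z', rfl⟩ := h1
      obtain ⟨x', rfl⟩ := h2
      have h3 : D * y ^ 2 = r * r * (z' ^ 2 - p * x' ^ 2) := by linear_combination -h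
      by_cases hry : r ∣ y
      · exact hprim r hr (Dvd.intro _ rfl) hry (Dvd.intro _ rfl)
      · have h4 : IsCoprime (r * r) (y ^ 2) := by
          have : IsCoprime r y := (Prime.coprime_iff_not_dvd hr).2 hry
          exact (this.mul_left this).pow_right
        have h5 : r * r ∣ D := h4.dvd_of_dvd_mul_right ⟨_, h3⟩
        exact hr.not_isUnit (hD r h5)
  refine ⟨?_, ((Prime.coprime_iff_not_dvd hp).2 hpy).symm⟩
  refine IsCoprime.mul_right (IsCoprime.mul_right ?_ ?_) hzx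
  · exact ((Prime.coprime_iff_not_dvd Int.prime_two).2 h2z).symm
  · exact ((Prime.coprime_iff_not_dvd hp).2 hpz).symm

theorem ideal_id {O : Type} [CommRing O] [IsDedekindDomain O] [CharZero O] (s : O)
    (p D x y z : ℤ) (hp0 : p ≠ 0) (hs : s ^ 2 = -((p : O) * D))
    (hxyz : z ^ 2 - p * x ^ 2 = D * y ^ 2) (h1 : IsCoprime z (2 * p * x)) (h2 : IsCoprime y p)
    (h3 : IsCoprime p D) :
    (Ideal.span {(p : O) * x + y * s, (z : O)}) ^ 4 * Ideal.span {(p : O)} =
      Ideal.span {((p : O) * x + y * s) ^ 2} := by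
  set α : O := (p : O) * x + y * s with hα
  set P : Ideal O := Ideal.span {(p : O), s} with hP
  set G : Ideal O := Ideal.span {α, (z : O)} with hG
  have hN : α * ((p : O) * x - y * s) = p * (z : O) ^ 2 := by
    have e1 : ((z ^ 2 - p * x ^ 2 : ℤ) : O) = ((D * y ^ 2 : ℤ) : O) := by rw [hxyz]
    push_cast at e1
    rw [hα]
    linear_combination (-(y : O) ^ 2) * hs - (p : O) * e1
  have hαG : α ∈ G := Ideal.subset_span (by simp)
  have hzG : (z : O) ∈ G := Ideal.subset_span (by simp)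
  have hpP : (p : O) ∈ P := Ideal.subset_span (by simp)
  have hsP : s ∈ P := Ideal.subset_span (by simp)
  have hpI : (p : O) ∈ Ideal.span {(p : O)} := Ideal.mem_span_singleton_self _
  have hαI : α ∈ Ideal.span {α} := Ideal.mem_span_singleton_self _
  have hPP : P ^ 2 = Ideal.span {(p : O)} := by
    apply le_antisymm
    · rw [sq, hP, Ideal.span_pair_mul_span_pair, Ideal.span_le]
      intro t ht
      simp only [Set.mem_insert_iff, Set.mem_singleton_iff] at ht
      rw [SetLike.mem_coe, Ideal.mem_span_singleton]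
      rcases ht with rfl | rfl | rfl | rfl
      · exact Dvd.intro _ rfl
      · exact Dvd.intro _ rfl
      · exact Dvd.intro_left _ rfl
      · exact ⟨-D, by linear_combination hs⟩
    · rw [Ideal.span_singleton_le_iff_mem]
      obtain ⟨a, b, hab⟩ := h3
      have e1 : ((a * p + b * D : ℤ) : O) = 1 := by rw [hab]; simp
      push_cast at e1
      have e2 : (p : O) = a * (p * p) + (-b) * (s * s) := by
        linear_combination (-(p : O)) * e1 + (b : O) * hs
      rw [e2, sq]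
      exact add_mem (Ideal.mul_mem_left _ _ (Ideal.mul_mem_mul hpP hpP))
        (Ideal.mul_mem_left _ _ (Ideal.mul_mem_mul hsP hsP))
  have key : G ^ 2 * Ideal.span {(p : O)} = Ideal.span {α} * P := by
    have hbarP : (p : O) * x - y * s ∈ P := sub_mem (Ideal.mul_mem_right _ _ hpP)
      (Ideal.mul_mem_left _ _ hsP)
    have g1 : α * α ∈ G ^ 2 := by rw [sq]; exact Ideal.mul_mem_mul hαG hαG
    have g2 : α * z ∈ G ^ 2 := by rw [sq]; exact Ideal.mul_mem_mul hαG hzG
    have g3 : (z : O) * z ∈ G ^ 2 := by rw [sq]; exact Ideal.mul_mem_mul hzG hzG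
    apply le_antisymm
    · rw [sq, hG, Ideal.span_pair_mul_span_pair, Ideal.mul_le]
      intro a ha b hb
      obtain ⟨c, rfl⟩ := Ideal.mem_span_singleton.1 hb
      revert a
      show Ideal.span _ ≤ Submodule.comap (LinearMap.mulRight O ((p : O) * c)) (Ideal.span {α} * P)
      rw [Ideal.span_le]
      intro t ht
      simp only [Set.mem_insert_iff, Set.mem_singleton_iff] at ht
      show t * ((p : O) * c) ∈ Ideal.span {α} * P
      rcases ht with rfl | rfl | rfl | rfl
      · rw [show α * α * ((p : O) * c) = α * (p * (c * α)) by ring]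
        exact Ideal.mul_mem_mul hαI (Ideal.mul_mem_right _ _ hpP)
      · rw [show α * z * ((p : O) * c) = α * (p * (c * z)) by ring]
        exact Ideal.mul_mem_mul hαI (Ideal.mul_mem_right _ _ hpP)
      · rw [show z * α * ((p : O) * c) = α * (p * (c * z)) by ring]
        exact Ideal.mul_mem_mul hαI (Ideal.mul_mem_right _ _ hpP)
      · rw [show (z : O) * z * ((p : O) * c) = α * (((p : O) * x - y * s) * c) by
          linear_combination (-c) * hN]
        exact Ideal.mul_mem_mul hαI (Ideal.mul_mem_right _ _ hbarP)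
    · have m1 : α * p ∈ G ^ 2 * Ideal.span {(p : O)} := by
        obtain ⟨u, w, huw⟩ := h1
        have e1 : ((u * z + w * (2 * p * x) : ℤ) : O) = 1 := by rw [huw]; simp
        push_cast at e1
        have e2 : α * p = u * ((α * z) * p) + w * ((α * α) * p) + (w * p) * ((z * z) * p) := by
          have e3 : α * ((p : O) * x - y * s) = p * (z : O) ^ 2 := hN
          have e4 : (p : O) * x - y * s = 2 * p * x - α := by rw [hα]; ring
          rw [e4] at e3
          linear_combination (-(α * p)) * e1 + (w * p : O) * e3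
        rw [e2]
        exact add_mem (add_mem (Ideal.mul_mem_left _ _ (Ideal.mul_mem_mul g2 hpI))
          (Ideal.mul_mem_left _ _ (Ideal.mul_mem_mul g1 hpI)))
          (Ideal.mul_mem_left _ _ (Ideal.mul_mem_mul g3 hpI))
      have m2 : α * s ∈ G ^ 2 * Ideal.span {(p : O)} := by
        obtain ⟨u, w, huw⟩ := h2
        have e1 : ((u * y + w * p : ℤ) : O) = 1 := by rw [huw]; simp
        push_cast at e1
        have e2 : α * s = (u * x + w * s) * (α * p) + (-u) * ((z * z) * p) := by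
          linear_combination (-(α * s)) * e1 - (u : O) * hN
        rw [e2]
        exact add_mem (Ideal.mul_mem_left _ _ m1) (Ideal.mul_mem_left _ _ (Ideal.mul_mem_mul g3 hpI))
      rw [Ideal.mul_le]
      intro a ha b hb
      obtain ⟨c, rfl⟩ := Ideal.mem_span_singleton.1 ha
      obtain ⟨d, e, rfl⟩ := Ideal.mem_span_pair.1 hb
      rw [show α * c * (d * p + e * s) = (c * d) * (α * p) + (c * e) * (α * s) by ring]
      exact add_mem (Ideal.mul_mem_left _ _ m1) (Ideal.mul_mem_left _ _ m2)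
  have hp0' : Ideal.span {(p : O)} ≠ 0 := by
    rw [Ne, Ideal.zero_eq_bot, Ideal.span_singleton_eq_bot]
    exact_mod_cast hp0
  apply mul_right_cancel₀ hp0'
  calc G ^ 4 * Ideal.span {(p : O)} * Ideal.span {(p : O)} =
      (G ^ 2 * Ideal.span {(p : O)}) ^ 2 := by ring
    _ = (Ideal.span {α} * P) ^ 2 := by rw [key]
    _ = Ideal.span {α} ^ 2 * P ^ 2 := by rw [mul_pow]
    _ = _ := by rw [hPP, Ideal.span_singleton_pow]

end Pool.Agent.X288.UR
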