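import Mathlib

/-!
# Legendre's theorem for two primes `≡ 1 mod 4`, and products
-/

set_option autoImplicit false

namespace Pool.Agent.X288.UR

/-- Legendre: `z² = p x² + q y²` -/
theorem legendre {p q : ℕ} (hp : p.Prime) (hq : q.Prime) (hpq : p ≠ q)
    (h1 : ∃ t : ℤ, (q : ℤ) ∣ t ^ 2 - p) (h2 : ∃ u : ℤ, (p : ℤ) ∣ u ^ 2 - q) :
    ∃ x y z : ℤ, y ≠ 0 ∧ z ^ 2 - p * x ^ 2 = q * y ^ 2 := by
  obtain ⟨t, ht⟩ := h1
  obtain ⟨u, hu⟩ := h2
  have hcop : IsCoprime (p : ℤ) (q : ℤ) := by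
    rw [Nat.isCoprime_iff_coprime]
    exact (Nat.coprime_primes hp hq).2 hpq
  obtain ⟨r, s, hrs⟩ := hcop
  -- A ≡ t mod q, 0 mod p; B ≡ u mod p, 0 mod q
  set A : ℤ := t * (r * p) with hA
  set B : ℤ := u * (s * q) with hB
  have hcong : ∀ x y z : ℤ, ((p * q : ℕ) : ℤ) ∣ z - (A * x + B * y) →
      ((p * q : ℕ) : ℤ) ∣ z ^ 2 - p * x ^ 2 - q * y ^ 2 := by
    intro x y z hz
    have hz' : (p : ℤ) * q ∣ z - (A * x + B * y) := by exact_mod_cast hz
    obtain ⟨w, hw⟩ := hz'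
    obtain ⟨a, ha⟩ := ht
    obtain ⟨b, hb⟩ := hu
    have hcop2 : IsCoprime (p : ℤ) (q : ℤ) := ⟨r, s, hrs⟩
    have hq1 : (q : ℤ) ∣ z ^ 2 - p * x ^ 2 - q * y ^ 2 := by
      have e1 : z = t * x + q * (p * w + u * s * y - t * s * x) := by
        have : r * (p : ℤ) = 1 - s * q := by linarith
        have h3 : z = A * x + B * y + p * q * w := by linarith
        rw [h3, hA, hB, this]
        ring
      have e2 : t ^ 2 = p + q * a := by linarith
      refine ⟨a * x ^ 2 + 2 * t * x * (p * w + u * s * y - t * s * x) +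
        q * (p * w + u * s * y - t * s * x) ^ 2 - y ^ 2, ?_⟩
      have e3 : z ^ 2 = t ^ 2 * x ^ 2 + 2 * t * x * (q * (p * w + u * s * y - t * s * x)) +
        (q * (p * w + u * s * y - t * s * x)) ^ 2 := by
        conv_lhs => rw [e1]
        ring
      rw [e3, e2]
      ring
    have hp1 : (p : ℤ) ∣ z ^ 2 - p * x ^ 2 - q * y ^ 2 := by
      have e1 : z = u * y + p * (q * w + t * r * x - u * r * y) := by
        have : s * (q : ℤ) = 1 - r * p := by linarith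
        have h3 : z = A * x + B * y + p * q * w := by linarith
        rw [h3, hA, hB, this]
        ring
      have e2 : u ^ 2 = q + p * b := by linarith
      refine ⟨b * y ^ 2 + 2 * u * y * (q * w + t * r * x - u * r * y) +
        p * (q * w + t * r * x - u * r * y) ^ 2 - x ^ 2, ?_⟩
      have e3 : z ^ 2 = u ^ 2 * y ^ 2 + 2 * u * y * (p * (q * w + t * r * x - u * r * y)) +
        (p * (q * w + t * r * x - u * r * y)) ^ 2 := by
        conv_lhs => rw [e1]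
        ring
      rw [e3, e2]
      ring
    push_cast
    exact hcop2.mul_dvd hp1 hq1
  -- pigeonhole
  have : NeZero (p * q) := ⟨Nat.mul_ne_zero hp.ne_zero hq.ne_zero⟩
  let F : ℕ × ℕ × ℕ → ZMod (p * q) := fun v => ((v.2.2 : ℤ) - (A * v.1 + B * v.2.1) : ℤ)
  let T : Finset (ℕ × ℕ × ℕ) := Finset.range (q.sqrt + 1) ×ˢ (Finset.range (p.sqrt + 1) ×ˢ
    Finset.range ((p * q).sqrt + 1))
  have hcard : p * q < T.card := by
    have e1 : T.card = (q.sqrt + 1) * ((p.sqrt + 1) * ((p * q).sqrt + 1)) := by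
      simp only [T, Finset.card_product, Finset.card_range]
    rw [e1]
    have a1 : q < (q.sqrt + 1) ^ 2 := Nat.lt_succ_sqrt' q
    have a2 : p < (p.sqrt + 1) ^ 2 := Nat.lt_succ_sqrt' p
    have a3 : p * q < ((p * q).sqrt + 1) ^ 2 := Nat.lt_succ_sqrt' (p * q)
    have a4 : (p * q) ^ 2 < ((q.sqrt + 1) * ((p.sqrt + 1) * ((p * q).sqrt + 1))) ^ 2 := by
      calc (p * q) ^ 2 = q * (p * (p * q)) := by ring
        _ < (q.sqrt + 1) ^ 2 * ((p.sqrt + 1) ^ 2 * ((p * q).sqrt + 1) ^ 2) := by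
            refine Nat.mul_lt_mul'' a1 (Nat.mul_lt_mul'' a2 a3)
        _ = _ := by ring
    exact lt_of_pow_lt_pow_left₀ 2 (Nat.zero_le _) a4
  obtain ⟨v, hv, v', hv', hne, hFv⟩ := Finset.exists_ne_map_eq_of_card_lt_of_maps_to
    (s := T) (t := (Finset.univ : Finset (ZMod (p * q)))) (f := F)
    (by rw [Finset.card_univ, ZMod.card]; exact hcard) (fun _ _ => Finset.mem_univ _)
  simp only [T, Finset.mem_product, Finset.mem_range] at hv hv'
  obtain ⟨v1, v2, v3⟩ := v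
  obtain ⟨w1, w2, w3⟩ := v'
  simp only at hv hv'
  set x : ℤ := (v1 : ℤ) - w1 with hx
  set y : ℤ := (v2 : ℤ) - w2 with hy
  set z : ℤ := (v3 : ℤ) - w3 with hz
  have hmod : ((p * q : ℕ) : ℤ) ∣ z - (A * x + B * y) := by
    have e1 : (((v3 : ℤ) - (A * v1 + B * v2) : ℤ) : ZMod (p * q)) =
        (((w3 : ℤ) - (A * w1 + B * w2) : ℤ) : ZMod (p * q)) := hFv
    rw [← sub_eq_zero, ← Int.cast_sub, ZMod.intCast_zmod_eq_zero_iff_dvd] at e1
    convert e1 using 1
    rw [hx, hy, hz]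
    ring
  obtain ⟨w, hw⟩ := hcong x y z hmod
  push_cast at hw
  -- squares
  have nsq : ∀ n : ℕ, n.Prime → ∀ a : ℤ, a ^ 2 ≠ n := by
    intro n hn a h
    have h1 : a.natAbs ^ 2 = n := by
      have := congrArg Int.natAbs h
      rw [Int.natAbs_pow] at this
      simpa using this
    exact (Nat.prime_iff.1 hn).irreducible.not_isSquare ⟨a.natAbs, by rw [← h1, sq]⟩
  have bound : ∀ (n a b : ℕ), a < n.sqrt + 1 → b < n.sqrt + 1 → ((a : ℤ) - b) ^ 2 ≤ n := by
    intro n a b ha hb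
    have h1 : |(a : ℤ) - b| ≤ n.sqrt := by
      rw [abs_le]
      constructor <;> omega
    have h2 : ((a : ℤ) - b) ^ 2 ≤ ((n.sqrt : ℕ) : ℤ) ^ 2 := sq_le_sq' (by
      have := neg_abs_le ((a : ℤ) - b)
      linarith) (le_trans (le_abs_self _) h1)
    have h3 : ((n.sqrt : ℕ) : ℤ) ^ 2 ≤ n := by exact_mod_cast Nat.sqrt_le' n
    linarith
  have bx : x ^ 2 < q := lt_of_le_of_ne (bound q v1 w1 hv.1 hv'.1) (nsq q hq x)
  have by' : y ^ 2 < p := lt_of_le_of_ne (bound p v2 w2 hv.2.1 hv'.2.1) (nsq p hp y)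
  have bz : z ^ 2 ≤ p * q := by
    have := bound (p * q) v3 w3 hv.2.2 hv'.2.2
    push_cast at this
    exact this
  have hp0 : (0 : ℤ) < p := by exact_mod_cast hp.pos
  have hq0 : (0 : ℤ) < q := by exact_mod_cast hq.pos
  have hpq0 : (0 : ℤ) < p * q := mul_pos hp0 hq0
  have hyne : ∀ X Y Z : ℤ, (X ≠ 0 ∨ Y ≠ 0 ∨ Z ≠ 0) → Z ^ 2 - p * X ^ 2 = q * Y ^ 2 → Y ≠ 0 := by
    intro X Y Z h0 h hY
    rw [hY] at h
    have h1 : Z ^ 2 = p * X ^ 2 := by linarith
    by_cases hX : X = 0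
    · rw [hX] at h1
      have h2 : Z = 0 := by
        have : Z ^ 2 = 0 := by linarith
        exact pow_eq_zero_iff (two_ne_zero) |>.1 this
      rcases h0 with h | h | h
      · exact h hX
      · exact h hY
      · exact h h2
    · have hXQ : (X : ℚ) ≠ 0 := by exact_mod_cast hX
      have h3 : ((p : ℕ) : ℚ) = ((Z : ℚ) / X) * ((Z : ℚ) / X) := by
        have h4 : (Z : ℚ) ^ 2 = p * (X : ℚ) ^ 2 := by exact_mod_cast h1
        field_simp
        linarith
      have h5 : IsSquare ((p : ℕ) : ℚ) := ⟨_, h3⟩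
      rw [Rat.isSquare_natCast_iff] at h5
      exact (Nat.prime_iff.1 hp).irreducible.not_isSquare h5
  have hxyz : x ≠ 0 ∨ y ≠ 0 ∨ z ≠ 0 := by
    by_contra hcon
    push Not at hcon
    obtain ⟨c1, c2, c3⟩ := hcon
    apply hne
    have d1 : v1 = w1 := by omega
    have d2 : v2 = w2 := by omega
    have d3 : v3 = w3 := by omega
    rw [d1, d2, d3]
  have hw1 : w < 1 ∨ w = 1 := by
    by_contra hcon
    push Not at hcon
    have h1 : 2 ≤ w := by
      rcases lt_or_eq_of_le hcon.1 with h | h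
      · omega
      · exact absurd h.symm hcon.2
    have h2 : (p : ℤ) * q * 2 ≤ p * q * w := mul_le_mul_of_nonneg_left h1 hpq0.le
    have h3 : 0 ≤ (p : ℤ) * x ^ 2 := by positivity
    have h4 : 0 ≤ (q : ℤ) * y ^ 2 := by positivity
    nlinarith
  have hw2 : -2 < w := by
    by_contra hcon
    push Not at hcon
    have h2 : (p : ℤ) * q * w ≤ p * q * (-2) := mul_le_mul_of_nonneg_left hcon hpq0.le
    have h3 : (p : ℤ) * x ^ 2 < p * q := mul_lt_mul_of_pos_left bx hp0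
    have h4 : (q : ℤ) * y ^ 2 < q * p := mul_lt_mul_of_pos_left by' hq0
    have h5 : 0 ≤ z ^ 2 := sq_nonneg z
    nlinarith
  rcases hw1 with hw1 | hw1
  · have hw3 : w = 0 ∨ w = -1 := by omega
    rcases hw3 with rfl | rfl
    · refine ⟨x, y, z, hyne x y z hxyz ?_, ?_⟩ <;> linarith
    · have e1 : p * x ^ 2 + q * y ^ 2 = z ^ 2 + p * q := by linarith
      have e2 : (z ^ 2 + p * q) ^ 2 - p * (x * z + q * y) ^ 2 = q * (y * z - p * x) ^ 2 := by
        linear_combination (-(z ^ 2) - p * q) * e1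
      have hZ : z ^ 2 + (p : ℤ) * q ≠ 0 := by positivity
      exact ⟨x * z + q * y, y * z - p * x, z ^ 2 + p * q, hyne _ _ _ (Or.inr (Or.inr hZ)) e2, e2⟩
  · exfalso
    subst hw1
    have h3 : 0 ≤ (p : ℤ) * x ^ 2 := by positivity
    have h4 : 0 ≤ (q : ℤ) * y ^ 2 := by positivity
    have h5 : z ^ 2 = p * q := by nlinarith
    have h6 : (p : ℤ) ∣ z ^ 2 := by rw [h5]; exact Dvd.intro _ rfl
    have hpp : Prime (p : ℤ) := Nat.prime_iff_prime_int.1 hp
    obtain ⟨z', hz'⟩ := hpp.dvd_of_dvd_pow h6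
    rw [hz'] at h5
    have h7 : (p : ℤ) * (p * z' ^ 2) = p * q := by linarith
    have h8 := mul_left_cancel₀ hp0.ne' h7
    have h9 : (p : ℤ) ∣ q := ⟨_, h8.symm⟩
    have h10 : p ∣ q := by exact_mod_cast h9
    exact hpq ((Nat.prime_dvd_prime_iff_eq hp hq).1 h10)

end Pool.Agent.X288.UR
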