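import Pool.Agent.X288.UR.Base

/-!
# Quadratic fields with `(ℤ/4)^r` in the class group, continued
-/

set_option autoImplicit false

namespace Pool.Agent.X288.UR

open NumberField nonZeroDivisors Polynomial

/-- the product of the primes with index different from `i` -/
noncomputable def Dx {N : ℕ} (i : Fin N) : ℤ := ∏ j ∈ Finset.univ.erase i, (pseq j : ℤ)

theorem prime_pseq (i : ℕ) : Prime (pseq i : ℤ) := Nat.prime_iff_prime_int.1 (pseq_prime i)

theorem pseq_not_dvd {N : ℕ} {i : ℕ} (s : Finset (Fin N)) (h : ∀ j ∈ s, (j : ℕ) ≠ i) :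
    ¬ (pseq i : ℤ) ∣ ∏ j ∈ s, (pseq j : ℤ) := by
  intro hd
  obtain ⟨j, hj, hij⟩ := (Prime.dvd_finsetProd_iff (prime_pseq i) _).1 hd
  have h1 : pseq i ∣ pseq j := by exact_mod_cast hij
  exact h j hj (pseq_inj ((Nat.prime_dvd_prime_iff_eq (pseq_prime i) (pseq_prime j)).1 h1)).symm

theorem sqf {N : ℕ} (s : Finset (Fin N)) : Squarefree (∏ j ∈ s, (pseq j : ℤ)) := by
  classical
  induction s using Finset.induction_on with
  | empty => exact squarefree_one
  | insert a s has ih =>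
    rw [Finset.prod_insert has, squarefree_mul_iff]
    refine ⟨?_, (prime_pseq a).squarefree, ih⟩
    refine ((Prime.coprime_iff_not_dvd (prime_pseq a)).2 (pseq_not_dvd s ?_)).isRelPrime
    intro j hj h
    exact has (by rwa [← Fin.ext h])

theorem mod4 {N : ℕ} (s : Finset (Fin N)) : (∏ j ∈ s, (pseq j : ℤ)) % 4 = 1 := by
  classical
  induction s using Finset.induction_on with
  | empty => rfl
  | insert a s has ih =>
    rw [Finset.prod_insert has, Int.mul_emod, ih]
    have h1 : (pseq a : ℤ) % 4 = 1 := by exact_mod_cast pseq_mod a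
    rw [h1]
    norm_num

theorem exists_sol {N : ℕ} (i : Fin N) : ∃ x y z : ℤ, y ≠ 0 ∧
    z ^ 2 - pseq i * x ^ 2 = Dx i * y ^ 2 ∧ IsCoprime z (2 * pseq i * x) ∧ IsCoprime y (pseq i) := by
  classical
  obtain ⟨x, y, z, hy, h, hprim⟩ := primitive (norm_prod (pseq i : ℤ) (fun j : Fin N => (pseq j : ℤ))
    (Finset.univ.erase i) (fun j hj => pseq_norm (fun h => (Finset.mem_erase.1 hj).1 (Fin.ext h.symm))))
  refine ⟨x, y, z, hy, h, ?_⟩
  have h1 : ¬ (pseq i : ℤ) ∣ Dx i :=
    pseq_not_dvd _ fun j hj hji => (Finset.mem_erase.1 hj).1 (Fin.ext hji)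
  exact coprimes (prime_pseq i) (sqf _) h1 (by exact_mod_cast pseq_mod i) (mod4 _) h hprim

theorem base (r : ℕ) : ∃ (K : Type) (_ : Field K) (_ : NumberField K), Module.finrank ℚ K = 2 ∧
    ∃ f : Multiplicative (Fin r → ZMod 4) →* ClassGroup (𝓞 K), Function.Injective f := by
  classical
  set N := r + 2 with hN
  set D : ℤ := ∏ j : Fin N, (pseq j : ℤ) with hD
  have hD0 : 0 < D := Finset.prod_pos fun j _ => by exact_mod_cast (pseq_prime j).pos
  have hDQ : (0 : ℚ) < D := by exact_mod_cast hD0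
  have hDi : ∀ i : Fin N, D = pseq i * Dx i := fun i =>
    (Finset.mul_prod_erase Finset.univ _ (Finset.mem_univ i)).symm
  -- the field
  have hirr : Irreducible (X ^ 2 + C (D : ℚ) : ℚ[X]) := by
    have hmon : (X ^ 2 + C (D : ℚ) : ℚ[X]).Monic := monic_X_pow_add_C _ two_ne_zero
    have hdeg : (X ^ 2 + C (D : ℚ) : ℚ[X]).natDegree = 2 := natDegree_X_pow_add_C
    rw [hmon.irreducible_iff_roots_eq_zero_of_degree_le_three (by omega) (by omega)]
    rw [Multiset.eq_zero_iff_forall_notMem]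
    intro a ha
    have h1 := (mem_roots'.1 ha).2
    rw [IsRoot.def] at h1
    simp only [eval_add, eval_pow, eval_X, eval_C] at h1
    nlinarith [sq_nonneg a]
  obtain ⟨K, hK1, hK2, θ, hfr, hθ, hgen⟩ := Pool.Agent.W289.CG.exists_field _ hirr
  have hdeg : Module.finrank ℚ K = 2 := by
    rw [hfr]
    exact natDegree_X_pow_add_C
  have hθ2 : θ ^ 2 = -((D : ℚ) : K) := by
    have h1 := hθ
    rw [map_add, map_pow, aeval_X, aeval_C] at h1
    have h2 : (algebraMap ℚ K) (D : ℚ) = ((D : ℚ) : K) := eq_ratCast _ _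
    rw [h2] at h1
    linear_combination h1
  refine ⟨K, hK1, hK2, hdeg, ?_⟩
  have hθint : IsIntegral ℤ θ := by
    have h1 : IsIntegral ℤ (θ ^ 2) := by
      rw [hθ2]
      have h3 : ((D : ℚ) : K) = algebraMap ℤ K D := by
        rw [eq_intCast]
        push_cast
        rfl
      rw [h3]
      exact (isIntegral_algebraMap).neg
    exact IsIntegral.of_pow two_pos h1
  set s : 𝓞 K := ⟨θ, hθint⟩ with hs
  have hs2 : ∀ i : Fin N, s ^ 2 = -(((pseq i : ℤ) : 𝓞 K) * (Dx i : ℤ)) := by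
    intro i
    apply RingOfIntegers.ext
    show θ ^ 2 = algebraMap (𝓞 K) K (-(((pseq i : ℤ) : 𝓞 K) * ((Dx i : ℤ) : 𝓞 K)))
    rw [map_neg, map_mul, map_intCast, map_intCast, hθ2, hDi i]
    push_cast
    ring
  -- the solutions
  have hsol := fun i : Fin N => exists_sol i
  choose x y z hy hxyz hc1 hc2 using hsol
  set α : Fin N → 𝓞 K := fun i => ((pseq i : ℤ) : 𝓞 K) * (x i : 𝓞 K) + (y i : 𝓞 K) * s with hα
  set G : Fin N → Ideal (𝓞 K) := fun i => Ideal.span {α i, ((z i : ℤ) : 𝓞 K)} with hG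
  have hpi0 : ∀ i : Fin N, (pseq i : ℤ) ≠ 0 := fun i => (prime_pseq i).ne_zero
  have hid : ∀ i, G i ^ 4 * Ideal.span {((pseq i : ℤ) : 𝓞 K)} = Ideal.span {α i ^ 2} := by
    intro i
    refine ideal_id s (pseq i) (Dx i) (x i) (y i) (z i) (hpi0 i) (hs2 i) (hxyz i) (hc1 i) (hc2 i) ?_
    exact (Prime.coprime_iff_not_dvd (prime_pseq i)).2
      (pseq_not_dvd _ fun j hj hji => (Finset.mem_erase.1 hj).1 (Fin.ext hji))
  have hz0 : ∀ i, z i ≠ 0 := by
    intro i h
    have h1 := hxyz i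
    have h2 : 0 < Dx i := Finset.prod_pos fun j _ => by exact_mod_cast (pseq_prime j).pos
    have h3 : (0 : ℤ) < pseq i := by exact_mod_cast (pseq_prime i).pos
    have h4 : 0 < y i ^ 2 := by have := hy i; positivity
    rw [h] at h1
    nlinarith [mul_pos h2 h4, mul_nonneg h3.le (sq_nonneg (x i))]
  have hG0 : ∀ i, G i ≠ 0 := by
    intro i h
    have h1 : ((z i : ℤ) : 𝓞 K) ∈ G i := Ideal.subset_span (by simp)
    rw [h, Ideal.zero_eq_bot, Ideal.mem_bot] at h1
    exact hz0 i (by exact_mod_cast h1)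
  have hα0 : ∀ i, α i ≠ 0 := by
    intro i h
    have h1 := hid i
    rw [h, zero_pow two_ne_zero, Ideal.span_singleton_zero, ← Ideal.zero_eq_bot] at h1
    rcases mul_eq_zero.1 h1 with h2 | h2
    · exact hG0 i (pow_eq_zero_iff (by norm_num) |>.1 h2)
    · rw [Ideal.zero_eq_bot, Ideal.span_singleton_eq_bot] at h2
      exact hpi0 i (by exact_mod_cast h2)
  have hαK : ∀ i, ((α i : 𝓞 K) : K) ≠ 0 := fun i h => hα0 i (RingOfIntegers.coe_eq_zero_iff.1 h)
  have hpK : ∀ i : Fin N, (((pseq i : ℤ) : K)) ≠ 0 := fun i => by exact_mod_cast hpi0 i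
  let a : Fin N → Kˣ := fun i => Units.mk0 ((α i : 𝓞 K) : K) (hαK i)
  let b : Fin N → Kˣ := fun i => Units.mk0 ((pseq i : ℤ) : K) (hpK i)
  have hrank : Units.rank K + 1 ≤ Module.finrank ℚ K := by
    have h1 := InfinitePlace.card_eq_nrRealPlaces_add_nrComplexPlaces K
    have h2 : Units.rank K = Fintype.card (InfinitePlace K) - 1 := rfl
    have h3 : 0 < Fintype.card (InfinitePlace K) := Fintype.card_pos
    have h4 := InfinitePlace.card_add_two_mul_card_eq_rank K
    omega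
  refine crit K N 4 r (by norm_num) (by omega) (fun i => a i ^ 2 * (b i)⁻¹) ?_ ?_
  · intro i
    refine ⟨FractionalIdeal.mk0 K ⟨G i, mem_nonZeroDivisors_of_ne_zero (hG0 i)⟩, ?_⟩
    have h1 : FractionalIdeal.mk0 K ⟨G i, mem_nonZeroDivisors_of_ne_zero (hG0 i)⟩ ^ 4 *
        toPrincipalIdeal (𝓞 K) K (b i) = toPrincipalIdeal (𝓞 K) K (a i ^ 2) := by
      apply Units.ext
      rw [Units.val_mul, Units.val_pow_eq_pow_val, FractionalIdeal.coe_mk0]
      have e1 : ((toPrincipalIdeal (𝓞 K) K (b i) : (FractionalIdeal (𝓞 K)⁰ K)ˣ) :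
          FractionalIdeal (𝓞 K)⁰ K) = ((Ideal.span {((pseq i : ℤ) : 𝓞 K)} : Ideal (𝓞 K)) :
          FractionalIdeal (𝓞 K)⁰ K) := by
        rw [FractionalIdeal.coeIdeal_span_singleton]
        have := (toPrincipalIdeal_eq_iff (R := 𝓞 K) (K := K) (x := b i)).1 rfl
        rw [← this]
        congr 1
      have e2 : ((toPrincipalIdeal (𝓞 K) K (a i ^ 2) : (FractionalIdeal (𝓞 K)⁰ K)ˣ) :
          FractionalIdeal (𝓞 K)⁰ K) = ((Ideal.span {α i ^ 2} : Ideal (𝓞 K)) :
          FractionalIdeal (𝓞 K)⁰ K) := by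
        rw [FractionalIdeal.coeIdeal_span_singleton]
        have := (toPrincipalIdeal_eq_iff (R := 𝓞 K) (K := K) (x := a i ^ 2)).1 rfl
        rw [← this]
        congr 1
      rw [e1, e2, ← hid i, FractionalIdeal.coeIdeal_mul, FractionalIdeal.coeIdeal_pow]
    rw [map_mul, map_inv, ← h1, mul_inv_cancel_right]
  · intro ℓ hℓ hℓM c w hw i
    have hℓ2 : ℓ = 2 := by
      have h1 : ℓ ∣ 2 ^ 2 := by norm_num; exact hℓM
      exact (Nat.prime_dvd_prime_iff_eq hℓ Nat.prime_two).1 (hℓ.dvd_of_dvd_pow h1)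
    subst hℓ2
    -- the product of the `p i ^ (c i % 2)` is a square
    set n : Fin N → ℕ := fun i => (c i % 2).toNat with hn
    have hcn : ∀ i, c i = n i + 2 * (c i / 2) := by
      intro i
      have h1 := Int.emod_nonneg (c i) (two_ne_zero)
      have h2 := Int.emod_add_mul_ediv (c i) 2
      have h3 : ((n i : ℕ) : ℤ) = c i % 2 := Int.toNat_of_nonneg h1
      rw [h3]
      exact h2.symm
    have hsq : ∏ i, b i ^ n i = ((∏ i, a i ^ c i) * (∏ i, b i ^ (c i / 2))⁻¹ * w⁻¹) ^ 2 := by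
      have h1 : w ^ 2 = (∏ i, a i ^ c i) ^ 2 * (∏ i, b i ^ c i)⁻¹ := by
        rw [← hw, ← Finset.prod_pow, ← Finset.prod_inv_distrib, ← Finset.prod_mul_distrib]
        refine Finset.prod_congr rfl fun i _ => ?_
        rw [mul_zpow, inv_zpow, ← zpow_natCast (a i), ← zpow_mul, ← zpow_natCast (a i ^ c i),
          ← zpow_mul, mul_comm (c i)]
      have h2 : ∏ i, b i ^ c i = (∏ i, b i ^ n i) * (∏ i, b i ^ (c i / 2)) ^ 2 := by
        rw [← Finset.prod_pow, ← Finset.prod_mul_distrib]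
        refine Finset.prod_congr rfl fun i _ => ?_
        conv_lhs => rw [hcn i]
        rw [zpow_add, zpow_natCast, zpow_mul, ← zpow_natCast (b i ^ (c i / 2)), ← zpow_mul,
          ← zpow_mul, mul_comm (2 : ℤ)]
        norm_num
      rw [mul_pow, mul_pow, inv_pow, inv_pow, h1, h2]
      have h3 : ∀ A B C : Kˣ, A = B * C⁻¹ * (B * (A * C)⁻¹)⁻¹ := by
        intro A B C
        rw [mul_inv B, inv_inv, mul_comm B C⁻¹, mul_assoc, ← mul_assoc B, mul_inv_cancel, one_mul, mul_comm A,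
          inv_mul_cancel_left]
      exact h3 _ _ _
    have hn2 : ∀ i, n i = 0 ∨ n i = 1 := by
      intro i
      have h1 := Int.emod_nonneg (c i) (two_ne_zero)
      have h2 := Int.emod_lt_of_pos (c i) (show (0 : ℤ) < 2 by norm_num)
      have h3 : ((n i : ℕ) : ℤ) = c i % 2 := Int.toNat_of_nonneg h1
      omega
    set P : ℤ := ∏ i : Fin N, (pseq i : ℤ) ^ n i with hP
    have hP0 : 0 < P := Finset.prod_pos fun j _ =>
      pow_pos (by exact_mod_cast (pseq_prime j).pos) _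
    obtain ⟨u, hu⟩ := sq_rat K θ D hDQ hθ2 hgen P (by exact_mod_cast hP0)
      (((∏ i, a i ^ c i) * (∏ i, b i ^ (c i / 2))⁻¹ * w⁻¹ : Kˣ) : K) (by
        rw [← Units.val_pow_eq_pow_val, ← hsq, Units.coe_prod]
        simp only [Units.val_pow_eq_pow_val, b, Units.val_mk0]
        rw [hP]
        push_cast
        rfl)
    have hPsq : IsSquare P := by
      have h1 : IsSquare (P : ℚ) := ⟨u, by rw [← hu, sq]⟩
      exact Rat.isSquare_intCast_iff.1 h1
    obtain ⟨v, hv⟩ := hPsq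
    have hni : n i = 0 := by
      rcases hn2 i with h | h
      · exact h
      · exfalso
        have e1 : P = pseq i * ∏ j ∈ Finset.univ.erase i, (pseq j : ℤ) ^ n j := by
          rw [hP, ← Finset.mul_prod_erase Finset.univ _ (Finset.mem_univ i), h, pow_one]
        have e2 : (pseq i : ℤ) ∣ v := by
          have : (pseq i : ℤ) ∣ v * v := by rw [← hv, e1]; exact Dvd.intro _ rfl
          rcases (prime_pseq i).dvd_or_dvd this with h | h <;> exact h
        obtain ⟨v', rfl⟩ := e2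
        have e3 : (pseq i : ℤ) * (∏ j ∈ Finset.univ.erase i, (pseq j : ℤ) ^ n j) =
            pseq i * (pseq i * (v' * v')) := by
          rw [← e1, hv]
          ring
        have e4 := mul_left_cancel₀ (hpi0 i) e3
        have e5 : (pseq i : ℤ) ∣ ∏ j ∈ Finset.univ.erase i, (pseq j : ℤ) ^ n j := ⟨_, e4⟩
        obtain ⟨j, hj, hij⟩ := (Prime.dvd_finsetProd_iff (prime_pseq i) _).1 e5
        have h1 : pseq i ∣ pseq j := by exact_mod_cast (prime_pseq i).dvd_of_dvd_pow hij
        exact (Finset.mem_erase.1 hj).1 (Fin.ext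
          (pseq_inj ((Nat.prime_dvd_prime_iff_eq (pseq_prime i) (pseq_prime j)).1 h1)).symm)
    rw [hcn i, hni]
    push_cast
    exact ⟨c i / 2, by ring⟩

end Pool.Agent.X288.UR
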