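import Pool.Agent.X288.UR.Step
import Pool.Agent.X288.UR.Quad

/-!
# The pairs `(d, m)` for which the `m`-rank of the class groups of the number fields of degree `d` is unbounded
-/

set_option autoImplicit false

namespace Pool.Agent.X288.UR

open NumberField

/-- the class group of `K` contains a subgroup isomorphic to `(ℤ/m)^r` -/
def HasRank (K : Type) [Field K] [NumberField K] (m r : ℕ) : Prop :=
  ∃ f : Multiplicative (Fin r → ZMod m) →* ClassGroup (𝓞 K), Function.Injective f

/-- `S(d, m)`: for every `r` there is a number field of degree `d` whose class group contains `(ℤ/m)^r` -/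
def Unbounded (d m : ℕ) : Prop :=
  ∀ r : ℕ, ∃ (K : Type) (_ : Field K) (_ : NumberField K), Module.finrank ℚ K = d ∧ HasRank K m r

theorem incl {m m' : ℕ} (hm' : 0 < m') (h : m ∣ m') :
    ∃ φ : ZMod m →+ ZMod m', Function.Injective φ := by
  obtain ⟨c, rfl⟩ := h
  have hc : 0 < c := Nat.pos_of_mul_pos_left hm' |> fun h => by
    rcases Nat.eq_zero_or_pos c with h0 | h0
    · subst h0; simp at hm'
    · exact h0
  let f : ℤ →+ ZMod (m * c) := (zmultiplesHom (ZMod (m * c))) (c : ZMod (m * c))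
  have hf : f m = 0 := by
    show (zmultiplesHom (ZMod (m * c))) (c : ZMod (m * c)) (m : ℤ) = 0
    rw [zmultiplesHom_apply, zsmul_eq_mul]
    have : (((m : ℤ) : ZMod (m * c)) * (c : ZMod (m * c))) = ((m * c : ℕ) : ZMod (m * c)) := by
      push_cast; ring
    rw [this, CharP.cast_eq_zero]
  refine ⟨ZMod.lift m ⟨f, hf⟩, ?_⟩
  rw [ZMod.lift_injective]
  intro n hn
  have h1 : ((n * c : ℤ) : ZMod (m * c)) = 0 := by
    have h2 : f n = 0 := hn
    have h3 : f n = ((n * c : ℤ) : ZMod (m * c)) := by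
      show (zmultiplesHom (ZMod (m * c))) (c : ZMod (m * c)) n = _
      rw [zmultiplesHom_apply, zsmul_eq_mul]
      push_cast
      ring
    rw [← h3, h2]
  rw [ZMod.intCast_zmod_eq_zero_iff_dvd] at h1 ⊢
  push_cast at h1
  exact Int.dvd_of_mul_dvd_mul_right (by exact_mod_cast hc.ne') h1

theorem HasRank.mono {K : Type} [Field K] [NumberField K] {m m' r r' : ℕ} (hm' : 0 < m')
    (hm : m ∣ m') (hr : r ≤ r') (h : HasRank K m' r') : HasRank K m r := by
  classical
  obtain ⟨f, hf⟩ := h
  obtain ⟨φ, hφ⟩ := incl hm' hm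
  let ψ : (Fin r → ZMod m) →+ (Fin r' → ZMod m') :=
    { toFun := fun v i => if h : (i : ℕ) < r then φ (v ⟨i, h⟩) else 0
      map_zero' := by
        funext i
        by_cases h : (i : ℕ) < r <;> simp [h]
      map_add' := fun v w => by
        funext i
        by_cases h : (i : ℕ) < r <;> simp [h] }
  have hψ : Function.Injective ψ := by
    intro v w hvw
    funext i
    have h1 := congrFun hvw (Fin.castLE hr i)
    have h2 : ((Fin.castLE hr i : Fin r') : ℕ) < r := i.2
    have h3 : (if h : ((Fin.castLE hr i : Fin r') : ℕ) < r then φ (v ⟨_, h⟩) else 0) =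
        (if h : ((Fin.castLE hr i : Fin r') : ℕ) < r then φ (w ⟨_, h⟩) else 0) := h1
    rw [dif_pos h2, dif_pos h2] at h3
    exact hφ h3
  refine ⟨f.comp (AddMonoidHom.toMultiplicative ψ), ?_⟩
  exact hf.comp hψ

theorem ext_rank (k : Type) [Field k] [NumberField k] (m e r : ℕ) (hm : 1 ≤ m) (he : 1 ≤ e)
    (h : HasRank k m (r + Module.finrank ℚ k * e)) :
    ∃ (K : Type) (_ : Field K) (_ : NumberField K) (_ : Algebra k K), Module.finrank k K = e ∧
      HasRank K (m * e) r := by
  by_cases hM : 2 ≤ m * e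
  · obtain ⟨f, hf⟩ := h
    exact step k m e _ r hm he hM le_rfl f hf
  · have h1 : m * e = 1 := by
      have : 0 < m * e := Nat.mul_pos hm he
      omega
    have he1 : e = 1 := Nat.eq_one_of_mul_eq_one_left h1
    have hm1 : m = 1 := Nat.eq_one_of_mul_eq_one_right h1
    subst he1
    subst hm1
    exact ⟨k, inferInstance, inferInstance, inferInstance, Module.finrank_self k,
      h.mono one_pos dvd_rfl (Nat.le_add_right _ _)⟩

theorem mul_unbounded {d m e : ℕ} (hm : 1 ≤ m) (he : 1 ≤ e) (h : Unbounded d m) :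
    Unbounded (d * e) (m * e) := by
  intro r
  obtain ⟨k, hk1, hk2, hd, hk⟩ := h (r + d * e)
  subst hd
  obtain ⟨K, hK1, hK2, hK3, hdeg, hK⟩ := ext_rank k m e r hm he hk
  refine ⟨K, hK1, hK2, ?_, hK⟩
  rw [← hdeg, Module.finrank_mul_finrank]

theorem dvd_unbounded {d m m' : ℕ} (hm' : 0 < m') (hm : m ∣ m') (h : Unbounded d m') :
    Unbounded d m := by
  intro r
  obtain ⟨K, hK1, hK2, hd, hK⟩ := h r
  exact ⟨K, hK1, hK2, hd, hK.mono hm' hm le_rfl⟩

theorem even_unbounded {d m : ℕ} (hd : 0 < d) (hd2 : Even d) (hm : m ∣ 2 * d) : Unbounded d m := by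
  obtain ⟨e, rfl⟩ := hd2
  have h1 : Unbounded (2 * e) (4 * e) := mul_unbounded (by norm_num) (by omega) base
  rw [← two_mul]
  exact dvd_unbounded (by omega) (by rw [← two_mul] at hm; exact (by
    have : 2 * (2 * e) = 4 * e := by ring
    rwa [this] at hm)) h1

end Pool.Agent.X288.UR
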