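import Mathlib

/-!
# Radicals in an extension which is totally ramified at a prime

`K/k` number fields, `Q ^ [K:k] = q O_K` for a maximal ideal `q` of `O_k`, `ℓ ∉ q` a prime number, `β ∈ O_K` with
`β ^ ℓ = δ ∈ O_k`, `δ ∉ q`.  Then `β` is in `O_k`.
-/

set_option autoImplicit false

namespace Pool.Agent.X288.UR

open NumberField

theorem absNorm_map (k K : Type) [Field k] [NumberField k] [Field K] [NumberField K] [Algebra k K]
    (I : Ideal (𝓞 k)) : Ideal.absNorm (I.map (algebraMap (𝓞 k) (𝓞 K))) =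
      Ideal.absNorm I ^ Module.finrank k K := by
  rw [Ideal.absNorm_algebraMap, ← IsFractionRing.finrank_eq (𝓞 k) k (𝓞 K) K]

theorem res_surj (k K : Type) [Field k] [NumberField k] [Field K] [NumberField K] [Algebra k K]
    (q : Ideal (𝓞 k)) (hq : q.IsMaximal) (hq0 : q ≠ ⊥) (Q : Ideal (𝓞 K))
    (hQ : Q ^ (Module.finrank k K) = q.map (algebraMap (𝓞 k) (𝓞 K))) (β : 𝓞 K) :
    ∃ a : 𝓞 k, β - algebraMap (𝓞 k) (𝓞 K) a ∈ Q := by
  have he : 0 < Module.finrank k K := Module.finrank_pos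
  have h1 : Ideal.absNorm Q = Ideal.absNorm q := by
    have h2 := absNorm_map k K q
    rw [← hQ, map_pow] at h2
    exact Nat.pow_left_injective he.ne' h2
  have hle : q.map (algebraMap (𝓞 k) (𝓞 K)) ≤ Q := by
    rw [← hQ]
    exact Ideal.pow_le_self he.ne'
  have hq1 : Ideal.absNorm q ≠ 1 := fun h => hq.ne_top (Ideal.absNorm_eq_one_iff.1 h)
  have hq00 : Ideal.absNorm q ≠ 0 := fun h => hq0 (Ideal.absNorm_eq_zero_iff.1 h)
  have hQt : Q ≠ ⊤ := fun h => hq1 (by rw [← h1, h, Ideal.absNorm_top])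
  have : Nontrivial (𝓞 K ⧸ Q) := Ideal.Quotient.nontrivial_iff.2 hQt
  let _ : Field (𝓞 k ⧸ q) := Ideal.Quotient.field q
  let φ : 𝓞 k ⧸ q →+* 𝓞 K ⧸ Q := Ideal.quotientMap Q (algebraMap (𝓞 k) (𝓞 K))
    (Ideal.map_le_iff_le_comap.1 hle)
  have hinj : Function.Injective φ := RingHom.injective φ
  have hc : Nat.card (𝓞 k ⧸ q) = Nat.card (𝓞 K ⧸ Q) := by
    have h3 := Ideal.absNorm_apply q
    have h4 := Ideal.absNorm_apply Q
    rw [Submodule.cardQuot_apply] at h3 h4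
    rw [h3.symm.trans (h1.symm.trans h4)]
  have hfin : Finite (𝓞 K ⧸ Q) := by
    apply Nat.finite_of_card_ne_zero
    have h4 := Ideal.absNorm_apply Q
    rw [Submodule.cardQuot_apply] at h4
    rw [← h4, h1]
    exact hq00
  have hsurj : Function.Surjective φ := by
    have := (Nat.bijective_iff_injective_and_card φ).2 ⟨hinj, hc⟩
    exact this.2
  obtain ⟨a, ha⟩ := hsurj (Ideal.Quotient.mk Q β)
  obtain ⟨a, rfl⟩ := Ideal.Quotient.mk_surjective a
  refine ⟨a, ?_⟩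
  rw [Ideal.quotientMap_mk] at ha
  rw [← Ideal.Quotient.eq, ha]

theorem radical_mem (k K : Type) [Field k] [NumberField k] [Field K] [NumberField K] [Algebra k K]
    (q : Ideal (𝓞 k)) (hq : q.IsMaximal) (hq0 : q ≠ ⊥) (Q : Ideal (𝓞 K))
    (hQ : Q ^ (Module.finrank k K) = q.map (algebraMap (𝓞 k) (𝓞 K)))
    (ℓ : ℕ) (hℓq : (ℓ : 𝓞 k) ∉ q) (β : 𝓞 K) (δ : 𝓞 k)
    (hβ : β ^ ℓ = algebraMap (𝓞 k) (𝓞 K) δ) (hδ : δ ∉ q) :
    ∃ η : k, algebraMap k K η = (β : K) := by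
  by_contra hcon
  obtain ⟨a, ha⟩ := res_surj k K q hq hq0 Q hQ β
  have he : 0 < Module.finrank k K := Module.finrank_pos
  let Ω := AlgebraicClosure K
  obtain ⟨W, hW, hWq⟩ := Ideal.exists_maximal_ideal_liesOver_of_isIntegral (S := 𝓞 Ω) q
  have hWq' : ∀ x : 𝓞 k, algebraMap (𝓞 k) (𝓞 Ω) x ∈ W ↔ x ∈ q := fun x => by
    rw [hWq.over]; rfl
  have hWp : W.IsPrime := hW.isPrime
  -- a conjugate
  have halg : Algebra.IsAlgebraic k Ω := Algebra.IsAlgebraic.trans k K Ω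
  have hnorm : Normal k Ω := by
    refine normal_iff.2 fun x => ⟨Algebra.IsIntegral.isIntegral x, ?_⟩
    exact IsAlgClosed.splits _
  set x : Ω := algebraMap K Ω (β : K) with hx
  have hxn : x ∉ (⊥ : Subalgebra k Ω) := by
    intro h
    obtain ⟨c, hc⟩ := Algebra.mem_bot.1 h
    apply hcon
    refine ⟨c, ?_⟩
    apply FaithfulSMul.algebraMap_injective K Ω
    rw [← IsScalarTower.algebraMap_apply k K Ω, hc]
  obtain ⟨y, hxy, hconj⟩ := (notMem_iff_exists_ne_and_isConjRoot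
    (Algebra.IsSeparable.isSeparable k x) (IsAlgClosed.splits _)).1 hxn
  obtain ⟨σ, hσ⟩ := (isConjRoot_iff_exists_algEquiv (K := k) (L := Ω)).1 hconj.symm
  let s : 𝓞 Ω →+* 𝓞 Ω := NumberField.RingOfIntegers.mapRingHom σ
  have hs : ∀ z : 𝓞 k, s (algebraMap (𝓞 k) (𝓞 Ω) z) = algebraMap (𝓞 k) (𝓞 Ω) z := by
    intro z
    apply RingOfIntegers.ext
    show σ (algebraMap k Ω z) = algebraMap k Ω z
    exact σ.commutes z
  set b : 𝓞 Ω := algebraMap (𝓞 K) (𝓞 Ω) β with hb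
  have hsb : s b ≠ b := by
    intro h
    have h1 : σ x = x := congrArg (fun z : 𝓞 Ω => (z : Ω)) h
    exact hxy (h1.symm.trans hσ)
  have hQW : ∀ z ∈ Q, algebraMap (𝓞 K) (𝓞 Ω) z ∈ W ∧ s (algebraMap (𝓞 K) (𝓞 Ω) z) ∈ W := by
    intro z hz
    have h1 : z ^ (Module.finrank k K) ∈ q.map (algebraMap (𝓞 k) (𝓞 K)) := by
      rw [← hQ]
      exact Ideal.pow_mem_pow hz _
    have h2 : q.map (algebraMap (𝓞 k) (𝓞 K)) ≤ W.comap (algebraMap (𝓞 K) (𝓞 Ω)) := by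
      rw [Ideal.map_le_iff_le_comap]
      intro t ht
      show algebraMap (𝓞 K) (𝓞 Ω) (algebraMap (𝓞 k) (𝓞 K) t) ∈ W
      rw [← IsScalarTower.algebraMap_apply]
      exact (hWq' t).2 ht
    have h3 : q.map (algebraMap (𝓞 k) (𝓞 K)) ≤ (W.comap s).comap (algebraMap (𝓞 K) (𝓞 Ω)) := by
      rw [Ideal.map_le_iff_le_comap]
      intro t ht
      show s (algebraMap (𝓞 K) (𝓞 Ω) (algebraMap (𝓞 k) (𝓞 K) t)) ∈ W
      rw [← IsScalarTower.algebraMap_apply, hs]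
      exact (hWq' t).2 ht
    refine ⟨hWp.mem_of_pow_mem (Module.finrank k K) ?_, hWp.mem_of_pow_mem (Module.finrank k K) ?_⟩
    · rw [← map_pow]
      exact h2 h1
    · rw [← map_pow, ← map_pow]
      exact h3 h1
  have hdiff : s b - b ∈ W := by
    obtain ⟨h1, h2⟩ := hQW _ ha
    rw [map_sub, ← hb, ← IsScalarTower.algebraMap_apply] at h1 h2
    rw [map_sub, hs] at h2
    have := W.sub_mem h2 h1
    simpa using this
  have hbℓ : b ^ ℓ = algebraMap (𝓞 k) (𝓞 Ω) δ := by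
    rw [hb, ← map_pow, hβ, ← IsScalarTower.algebraMap_apply]
  have hsbℓ : s b ^ ℓ = b ^ ℓ := by
    rw [← map_pow, hbℓ, hs]
  have hbW : b ∉ W := by
    intro h
    apply hδ
    rw [← hWq', ← hbℓ]
    by_cases hℓ0 : ℓ = 0
    · subst hℓ0
      exact absurd (by simp) hℓq
    · exact W.pow_mem_of_mem h ℓ (Nat.pos_of_ne_zero hℓ0)
  have hsum : ∑ i ∈ Finset.range ℓ, (s b) ^ i * b ^ (ℓ - 1 - i) = 0 := by
    have h1 := geom_sum₂_mul (s b) b ℓ
    rw [hsbℓ, sub_self] at h1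
    exact (mul_eq_zero.1 h1).resolve_right (sub_ne_zero.2 hsb)
  have hmod : (ℓ : 𝓞 Ω) * b ^ (ℓ - 1) ∈ W := by
    rw [← Ideal.Quotient.eq_zero_iff_mem]
    have h1 := congrArg (Ideal.Quotient.mk W) hsum
    have h2 : Ideal.Quotient.mk W (s b) = Ideal.Quotient.mk W b := Ideal.Quotient.eq.2 hdiff
    rw [map_sum, map_zero] at h1
    simp only [map_mul, map_pow, h2] at h1
    rw [geom_sum₂_self] at h1
    rw [map_mul, map_natCast, map_pow]
    exact h1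
  rcases hWp.mem_or_mem hmod with h | h
  · apply hℓq
    rw [← hWq', map_natCast]
    exact h
  · exact hbW (hWp.mem_of_pow_mem _ h)

end Pool.Agent.X288.UR
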