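import Pool.Agent.X288.UR.Crit
import Pool.Agent.X288.UR.Rad
import Pool.Agent.X288.UR.Ext

/-!
# `(ℤ/m)^N` in the class group of `k` gives `(ℤ/me)^R` in the class group of an extension of degree `e`
-/

set_option autoImplicit false

namespace Pool.Agent.X288.UR

open NumberField nonZeroDivisors UniqueFactorizationMonoid

open Classical in
theorem cnt_prod {A : Type} [CommRing A] [IsDedekindDomain A] (P : Ideal A) {N : ℕ}
    (I : Fin N → Ideal A) (hI : ∀ i, I i ≠ 0) (n : Fin N → ℕ) :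
    (normalizedFactors (∏ i, I i ^ n i)).count P = ∑ i, n i * (normalizedFactors (I i)).count P := by
  have key : ∀ s : Finset (Fin N), (normalizedFactors (∏ i ∈ s, I i ^ n i)).count P =
      ∑ i ∈ s, n i * (normalizedFactors (I i)).count P := by
    intro s
    induction s using Finset.induction_on with
    | empty =>
      rw [Finset.prod_empty, Finset.sum_empty, normalizedFactors_one]
      simp
    | insert a s has ih =>
      rw [Finset.prod_insert has, Finset.sum_insert has, normalizedFactors_mul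
        (pow_ne_zero _ (hI a)) (Finset.prod_ne_zero_iff.2 fun i _ => pow_ne_zero _ (hI i)),
        Multiset.count_add, ih, normalizedFactors_pow, Multiset.count_nsmul]
  exact key Finset.univ

theorem prime_above (k : Type) [Field k] [NumberField k] (p : ℕ) (hp : p.Prime) :
    ∃ q : Ideal (𝓞 k), q.IsMaximal ∧ q ≠ ⊥ ∧ ∀ n : ℤ, (n : 𝓞 k) ∈ q ↔ (p : ℤ) ∣ n := by
  have : Fact p.Prime := ⟨hp⟩
  have hmax : (Ideal.span {(p : ℤ)}).IsMaximal := Int.ideal_span_isMaximal_of_prime p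
  obtain ⟨q, hq, hqp⟩ := Ideal.exists_maximal_ideal_liesOver_of_isIntegral (S := 𝓞 k)
    (Ideal.span {(p : ℤ)})
  have hiff : ∀ n : ℤ, (n : 𝓞 k) ∈ q ↔ (p : ℤ) ∣ n := by
    intro n
    rw [← Ideal.mem_span_singleton, hqp.over]
    show _ ↔ algebraMap ℤ (𝓞 k) n ∈ q
    rw [eq_intCast]
  refine ⟨q, hq, ?_, hiff⟩
  rintro rfl
  have h1 := (hiff p).2 dvd_rfl
  rw [Ideal.mem_bot] at h1
  have h2 : (p : ℤ) = 0 := by exact_mod_cast h1
  exact hp.ne_zero (by exact_mod_cast h2)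

theorem exists_rep (k : Type) [Field k] [NumberField k] (c : ClassGroup (𝓞 k))
    (B : Ideal (𝓞 k)) (hB : B ≠ 0) :
    ∃ I : (Ideal (𝓞 k))⁰, ClassGroup.mk0 I = c ∧ IsCoprime (I : Ideal (𝓞 k)) B := by
  obtain ⟨J, hJ⟩ := ClassGroup.mk0_surjective c⁻¹
  by_cases hB1 : B = ⊤
  · obtain ⟨I, hI⟩ := ClassGroup.mk0_surjective c
    refine ⟨I, hI, ?_⟩
    rw [Ideal.isCoprime_iff_sup_eq, hB1]
    exact sup_top_eq _
  have hJ0 : (J : Ideal (𝓞 k)) ≠ 0 := nonZeroDivisors.coe_ne_zero J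
  obtain ⟨a, ha⟩ := IsDedekindDomain.exists_sup_span_eq (I := (J : Ideal (𝓞 k)) * B)
    (J := (J : Ideal (𝓞 k))) Ideal.mul_le_left (mul_ne_zero hJ0 hB)
  have haJ : Ideal.span {a} ≤ (J : Ideal (𝓞 k)) := by
    conv_rhs => rw [← ha]
    exact le_sup_right
  obtain ⟨I, hI⟩ := Ideal.dvd_iff_le.2 haJ
  have hcop : B ⊔ I = ⊤ := by
    have h1 : (J : Ideal (𝓞 k)) * (B ⊔ I) = (J : Ideal (𝓞 k)) * ⊤ := by
      rw [Ideal.mul_sup, ← hI, ha, Ideal.mul_top]
    exact mul_left_cancel₀ hJ0 h1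
  have hI0 : I ≠ 0 := by
    rintro rfl
    apply hB1
    rw [← hcop]
    simp
  have hIm : I ∈ (Ideal (𝓞 k))⁰ := mem_nonZeroDivisors_of_ne_zero hI0
  refine ⟨⟨I, hIm⟩, ?_, ?_⟩
  · have h1 : ClassGroup.mk0 (J * ⟨I, hIm⟩) = 1 := by
      have h2 : J * ⟨I, hIm⟩ = ⟨(J : Ideal (𝓞 k)) * I, mul_mem J.2 hIm⟩ := rfl
      rw [h2, ClassGroup.mk0_eq_one_iff]
      exact ⟨a, hI.symm⟩
    rw [map_mul, hJ] at h1
    exact (inv_mul_eq_one.1 h1).symm
  · rw [Ideal.isCoprime_iff_sup_eq, sup_comm]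
    exact hcop

theorem exists_root_map {k K : Type} [Field k] [NumberField k] [Field K] [NumberField K]
    [Algebra k K] (e : ℕ) (S : Finset (Ideal (𝓞 k)))
    (h : ∀ q ∈ S, ∃ Q : Ideal (𝓞 K), Q ^ e = q.map (algebraMap (𝓞 k) (𝓞 K)))
    (s : Multiset (Ideal (𝓞 k))) :
    (∀ q ∈ s, q ∈ S) → ∃ J : Ideal (𝓞 K), J ^ e = (s.prod).map (algebraMap (𝓞 k) (𝓞 K)) := by
  induction s using Multiset.induction_on with
  | empty =>
    intro _
    refine ⟨1, ?_⟩
    rw [one_pow, Multiset.prod_zero, Ideal.one_eq_top, Ideal.one_eq_top, Ideal.map_top]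
  | cons a s ih =>
    intro hs
    obtain ⟨J, hJ⟩ := ih fun q hq => hs q (Multiset.mem_cons_of_mem hq)
    obtain ⟨Q, hQ⟩ := h a (hs a (Multiset.mem_cons_self a s))
    refine ⟨Q * J, ?_⟩
    rw [mul_pow, hJ, hQ, Multiset.prod_cons, Ideal.map_mul]

open Classical in
theorem step (k : Type) [Field k] [NumberField k] (m e N R : ℕ) (hm : 1 ≤ m) (he : 1 ≤ e)
    (hM : 2 ≤ m * e) (hR : R + Module.finrank ℚ k * e ≤ N)
    (f : Multiplicative (Fin N → ZMod m) →* ClassGroup (𝓞 k)) (hf : Function.Injective f) :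
    ∃ (K : Type) (_ : Field K) (_ : NumberField K) (_ : Algebra k K), Module.finrank k K = e ∧
      ∃ g : Multiplicative (Fin R → ZMod (m * e)) →* ClassGroup (𝓞 K), Function.Injective g := by
  -- the primes `p i`
  have hex : ∀ i : Fin N, ∃ q : Ideal (𝓞 k), q.IsMaximal ∧ q ≠ ⊥ ∧
      ∀ n : ℤ, (n : 𝓞 k) ∈ q ↔ ((Nat.nth Nat.Prime i : ℕ) : ℤ) ∣ n := fun i =>
    prime_above k _ (Nat.prime_nth_prime i)
  choose p hp1 hp2 hp3 using hex
  have hpne : ∀ i j, i ≠ j → p i ≠ p j := by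
    intro i j hij h
    have h1 := (hp3 i ((Nat.nth Nat.Prime i : ℕ) : ℤ)).2 dvd_rfl
    rw [h, hp3 j] at h1
    have h2 : Nat.nth Nat.Prime j ∣ Nat.nth Nat.Prime i := by exact_mod_cast h1
    have h3 := (Nat.prime_dvd_prime_iff_eq (Nat.prime_nth_prime j) (Nat.prime_nth_prime i)).1 h2
    have h4 := Nat.nth_injective Nat.infinite_setOfPred_prime h3
    exact hij (Fin.ext h4.symm)
  have hpP : ∀ i, Prime (p i) := fun i => Ideal.prime_of_isPrime (hp2 i) (hp1 i).isPrime
  set B : Ideal (𝓞 k) := ∏ i, p i with hB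
  have hB0 : B ≠ 0 := Finset.prod_ne_zero_iff.2 fun i _ => hp2 i
  -- the ideals `a i`
  have hrep := fun i : Fin N => exists_rep k
    (f (Multiplicative.ofAdd (Pi.single i 1)) * (ClassGroup.mk0 ⟨p i, mem_nonZeroDivisors_of_ne_zero (hp2 i)⟩)⁻¹)
    B hB0
  choose b hb1 hb2 using hrep
  let a : Fin N → (Ideal (𝓞 k))⁰ := fun i => b i * ⟨p i, mem_nonZeroDivisors_of_ne_zero (hp2 i)⟩
  have ha : ∀ i, (a i : Ideal (𝓞 k)) = (b i : Ideal (𝓞 k)) * p i := fun i => rfl
  have hacl : ∀ i, ClassGroup.mk0 (a i) = f (Multiplicative.ofAdd (Pi.single i 1)) := by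
    intro i
    show ClassGroup.mk0 (b i * ⟨p i, _⟩) = _
    rw [map_mul, hb1, inv_mul_cancel_right]
  have ha0 : ∀ i, (a i : Ideal (𝓞 k)) ≠ 0 := fun i => nonZeroDivisors.coe_ne_zero _
  have hb0 : ∀ i, (b i : Ideal (𝓞 k)) ≠ 0 := fun i => nonZeroDivisors.coe_ne_zero _
  have hcnt : ∀ i j, (normalizedFactors (a j : Ideal (𝓞 k))).count (p i) = if i = j then 1 else 0 := by
    intro i j
    rw [ha, normalizedFactors_mul (hb0 j) (hp2 j), Multiset.count_add,
      normalizedFactors_irreducible (hpP j).irreducible]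
    have h1 : (normalizedFactors (b j : Ideal (𝓞 k))).count (p i) = 0 := by
      rw [Multiset.count_eq_zero]
      intro h
      have h2 : p i ∣ (b j : Ideal (𝓞 k)) := dvd_of_mem_normalizedFactors h
      have h3 : p i ∣ B := Finset.dvd_prod_of_mem _ (Finset.mem_univ i)
      have h4 := (hb2 j).isUnit_of_dvd' h2 h3
      exact (hpP i).not_isUnit h4
    rw [h1, zero_add, normalize_eq, Multiset.count_singleton]
    by_cases hij : i = j
    · rw [if_pos (by rw [hij]), if_pos hij]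
    · rw [if_neg (hpne i j hij), if_neg hij]
  -- the generators of the `m`-th powers
  have hpr : ∀ i, ∃ γ : 𝓞 k, (a i : Ideal (𝓞 k)) ^ m = Ideal.span {γ} := by
    intro i
    have h1 : ClassGroup.mk0 (a i ^ m) = 1 := by
      rw [map_pow, hacl, ← map_pow]
      have h2 : (Multiplicative.ofAdd (Pi.single i (1 : ZMod m) : Fin N → ZMod m)) ^ m = 1 := by
        rw [← ofAdd_nsmul]
        have h3 : m • (Pi.single i (1 : ZMod m) : Fin N → ZMod m) = 0 := by
          ext j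
          rw [Pi.smul_apply, nsmul_eq_mul, CharP.cast_eq_zero, zero_mul]
          rfl
        rw [h3]
        rfl
      rw [h2, map_one]
    have h4 : a i ^ m = ⟨(a i : Ideal (𝓞 k)) ^ m, pow_mem (a i).2 m⟩ := rfl
    rw [h4, ClassGroup.mk0_eq_one_iff] at h1
    obtain ⟨γ, hγ⟩ := h1
    exact ⟨γ, hγ⟩
  choose γ hγ using hpr
  have hγ0 : ∀ i, γ i ≠ 0 := by
    intro i h
    have h1 := hγ i
    rw [h, Ideal.span_singleton_zero] at h1
    exact pow_ne_zero m (ha0 i) h1
  -- the auxiliary prime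
  set T : Ideal (𝓞 k) := ∏ i, (a i : Ideal (𝓞 k)) with hT
  have hT0 : T ≠ 0 := Finset.prod_ne_zero_iff.2 fun i _ => ha0 i
  have hTn : Ideal.absNorm T ≠ 0 := fun h => hT0 (Ideal.absNorm_eq_zero_iff.1 h)
  obtain ⟨p0, hp0l, hp0⟩ := Nat.exists_infinite_primes (m * e * Ideal.absNorm T + 1)
  obtain ⟨q0, hq1, hq2, hq3⟩ := prime_above k p0 hp0
  have hq0p : q0.IsPrime := hq1.isPrime
  have hsmall : ∀ n : ℕ, 0 < n → n < p0 → (n : 𝓞 k) ∉ q0 := by
    intro n hn hnp h
    have h1 := (hq3 n).1 (by exact_mod_cast h)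
    have h2 : p0 ∣ n := by exact_mod_cast h1
    exact absurd (Nat.le_of_dvd hn h2) (by omega)
  have hTpos : 0 < Ideal.absNorm T := Nat.pos_of_ne_zero hTn
  have hq0T : ¬ T ≤ q0 := by
    intro h
    refine hsmall (Ideal.absNorm T) hTpos ?_ (h (Ideal.absNorm_mem T))
    have : Ideal.absNorm T ≤ m * e * Ideal.absNorm T := Nat.le_mul_of_pos_left _ (by omega)
    omega
  have hq0a : ∀ i, ¬ (a i : Ideal (𝓞 k)) ≤ q0 := by
    intro i h
    exact hq0T ((Ideal.le_of_dvd (Finset.dvd_prod_of_mem _ (Finset.mem_univ i))).trans h)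
  have hγq : ∀ i, γ i ∉ q0 := by
    intro i h
    have h1 : (a i : Ideal (𝓞 k)) ^ m ≤ q0 := by
      rw [hγ i, Ideal.span_singleton_le_iff_mem]
      exact h
    exact hq0a i (hq0p.le_of_pow_le h1)
  -- the extension
  set S : Finset (Ideal (𝓞 k)) := insert q0 (normalizedFactors T).toFinset with hSdef
  have hS : ∀ q ∈ S, q.IsMaximal ∧ q ≠ ⊥ := by
    intro q hq
    rcases Finset.mem_insert.1 hq with rfl | h
    · exact ⟨hq1, hq2⟩
    · rw [Multiset.mem_toFinset] at h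
      have h1 : Prime q := prime_of_normalized_factor q h
      exact ⟨(Ideal.isPrime_of_prime h1).isMaximal h1.ne_zero, h1.ne_zero⟩
  obtain ⟨K, hK1, hK2, hK3, hdeg, hQ⟩ := exists_ext k S hS ⟨q0, Finset.mem_insert_self _ _⟩ e he
  have hrk : Module.finrank ℚ K = Module.finrank ℚ k * e := by
    rw [← hdeg, Module.finrank_mul_finrank]
  refine ⟨K, hK1, hK2, hK3, hdeg, ?_⟩
  have hA : ∀ i, ∃ J : Ideal (𝓞 K), J ^ e = (a i : Ideal (𝓞 k)).map (algebraMap (𝓞 k) (𝓞 K)) := by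
    intro i
    obtain ⟨J, hJ⟩ := exists_root_map e S hQ (normalizedFactors (a i : Ideal (𝓞 k))) (by
      intro q hq
      refine Finset.mem_insert_of_mem ?_
      rw [Multiset.mem_toFinset]
      have h1 : (a i : Ideal (𝓞 k)) ∣ T := Finset.dvd_prod_of_mem _ (Finset.mem_univ i)
      exact Multiset.mem_of_le ((dvd_iff_normalizedFactors_le_normalizedFactors (ha0 i) hT0).1 h1) hq)
    refine ⟨J, ?_⟩
    rw [hJ, prod_normalizedFactors_eq (ha0 i), normalize_eq]
  choose J hJ using hA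
  have hJ0 : ∀ i, J i ≠ 0 := by
    intro i h
    have h1 := hJ i
    rw [h, zero_pow (by omega)] at h1
    exact ha0 i ((Ideal.map_eq_bot_iff_of_injective
      (FaithfulSMul.algebraMap_injective (𝓞 k) (𝓞 K))).1 h1.symm)
  have hrank : Units.rank K + 1 ≤ Module.finrank ℚ K := by
    have h1 := InfinitePlace.card_eq_nrRealPlaces_add_nrComplexPlaces K
    have h2 : Units.rank K = Fintype.card (InfinitePlace K) - 1 := rfl
    have h3 : 0 < Fintype.card (InfinitePlace K) := Fintype.card_pos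
    have h4 := InfinitePlace.card_add_two_mul_card_eq_rank K
    omega
  have hinj : Function.Injective (algebraMap k K) := (algebraMap k K).injective
  have hγK : ∀ i, algebraMap k K (γ i : k) ≠ 0 := by
    intro i h
    rw [map_eq_zero] at h
    exact hγ0 i (RingOfIntegers.coe_eq_zero_iff.1 h)
  let g : Fin N → Kˣ := fun i => Units.mk0 (algebraMap k K (γ i : k)) (hγK i)
  have hg : ∀ i, ((g i : Kˣ) : K) = algebraMap k K (γ i : k) := fun i => rfl
  refine crit K N (m * e) R hM (by omega) g ?_ ?_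
  · intro i
    refine ⟨FractionalIdeal.mk0 K ⟨J i, mem_nonZeroDivisors_of_ne_zero (hJ0 i)⟩, ?_⟩
    symm
    rw [toPrincipalIdeal_eq_iff, Units.val_pow_eq_pow_val, FractionalIdeal.coe_mk0,
      ← FractionalIdeal.coeIdeal_pow]
    have h1 : J i ^ (m * e) = Ideal.span {algebraMap (𝓞 k) (𝓞 K) (γ i)} := by
      rw [mul_comm, pow_mul, hJ, ← Ideal.map_pow, hγ, Ideal.map_span, Set.image_singleton]
    rw [h1, FractionalIdeal.coeIdeal_span_singleton]
    rfl
  · intro ℓ hℓ hℓM c y hy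
    have hℓ0 : (0 : ℤ) < ℓ := by exact_mod_cast hℓ.pos
    set n : Fin N → ℕ := fun i => (c i % ℓ).toNat with hn
    have hcn : ∀ i, c i = n i + ℓ * (c i / ℓ) := by
      intro i
      have h1 := Int.emod_nonneg (c i) hℓ0.ne'
      have h2 := Int.emod_add_mul_ediv (c i) ℓ
      have h3 : ((n i : ℕ) : ℤ) = c i % ℓ := Int.toNat_of_nonneg h1
      rw [h3]
      exact h2.symm
    suffices h : ∀ i, ℓ ∣ n i by
      intro i
      rw [hcn i]
      exact dvd_add (by exact_mod_cast h i) (Dvd.intro _ rfl)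
    set δ : 𝓞 k := ∏ i, γ i ^ n i with hδ
    have hδq : δ ∉ q0 := by
      intro h
      rw [hδ, hq0p.prod_mem_iff] at h
      obtain ⟨i, -, hi⟩ := h
      exact hγq i (hq0p.mem_of_pow_mem _ hi)
    set z : Kˣ := y * (∏ i, g i ^ (c i / ℓ))⁻¹ with hz
    have hzℓ : z ^ ℓ = ∏ i, g i ^ n i := by
      rw [hz, mul_pow, ← hy, inv_pow, ← Finset.prod_pow, ← Finset.prod_inv_distrib,
        ← Finset.prod_mul_distrib]
      refine Finset.prod_congr rfl fun i _ => ?_
      conv_lhs => rw [hcn i]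
      rw [zpow_add, zpow_natCast, mul_comm (ℓ : ℤ), zpow_mul, zpow_natCast]
      have h5 : (((n i : ℕ) : ℤ) + c i / ℓ * ℓ) / ℓ = c i / ℓ := by
        rw [mul_comm (c i / ℓ), ← hcn i]
      rw [h5, mul_inv_cancel_right]
    have hzδ : (z : K) ^ ℓ = algebraMap k K (δ : k) := by
      have h1 := congrArg (fun u : Kˣ => (u : K)) hzℓ
      simp only [Units.val_pow_eq_pow_val, Units.coe_prod, hg] at h1
      rw [h1, hδ]
      show _ = algebraMap k K (algebraMap (𝓞 k) k (∏ i, γ i ^ n i))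
      rw [map_prod, map_prod]
      simp only [map_pow]
    have hzint : IsIntegral ℤ (z : K) := by
      have h1 : IsIntegral ℤ ((z : K) ^ ℓ) := by
        rw [hzδ]
        exact (RingOfIntegers.isIntegral_coe δ).algebraMap
      exact IsIntegral.of_pow hℓ.pos h1
    let β : 𝓞 K := ⟨z, hzint⟩
    have hβ : β ^ ℓ = algebraMap (𝓞 k) (𝓞 K) δ := RingOfIntegers.ext hzδ
    have hℓle : ℓ ≤ m * e * Ideal.absNorm T := by
      have h1 := Nat.le_of_dvd (by omega) hℓM
      have h2 : m * e ≤ m * e * Ideal.absNorm T := Nat.le_mul_of_pos_right _ hTpos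
      omega
    have hℓq : (ℓ : 𝓞 k) ∉ q0 := hsmall ℓ hℓ.pos (by omega)
    obtain ⟨Q, hQ0⟩ := hQ q0 (Finset.mem_insert_self _ _)
    obtain ⟨η, hη⟩ := radical_mem k K q0 hq1 hq2 Q (by rw [hdeg]; exact hQ0) ℓ hℓq β δ hβ hδq
    have hηℓ : η ^ ℓ = (δ : k) := by
      apply hinj
      rw [map_pow, hη]
      exact hzδ
    have hηint : IsIntegral ℤ η := by
      have h1 : IsIntegral ℤ (η ^ ℓ) := by
        rw [hηℓ]
        exact RingOfIntegers.isIntegral_coe δ
      exact IsIntegral.of_pow hℓ.pos h1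
    let ε : 𝓞 k := ⟨η, hηint⟩
    have hε : ε ^ ℓ = δ := RingOfIntegers.ext hηℓ
    have hid : (Ideal.span {ε}) ^ ℓ = ∏ i, (a i : Ideal (𝓞 k)) ^ (m * n i) := by
      rw [Ideal.span_singleton_pow, hε, hδ, ← Ideal.prod_span_singleton]
      refine Finset.prod_congr rfl fun i _ => ?_
      rw [← Ideal.span_singleton_pow, ← hγ, ← pow_mul]
    intro i
    by_cases hℓm : ℓ ∣ m
    · obtain ⟨m', rfl⟩ := hℓm
      have h1 : (Ideal.span {ε}) ^ ℓ = (∏ i, (a i : Ideal (𝓞 k)) ^ (m' * n i)) ^ ℓ := by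
        rw [hid, ← Finset.prod_pow]
        refine Finset.prod_congr rfl fun i _ => ?_
        rw [← pow_mul]
        congr 1
        ring
      have h2 : Ideal.span {ε} = ∏ i, (a i : Ideal (𝓞 k)) ^ (m' * n i) :=
        pow_left_injective hℓ.ne_zero h1
      have h3 : ClassGroup.mk0 (∏ i, a i ^ (m' * n i)) = 1 := by
        have h4 : (∏ i, a i ^ (m' * n i)) =
            ⟨((∏ i, a i ^ (m' * n i) : (Ideal (𝓞 k))⁰) : Ideal (𝓞 k)), (∏ i, a i ^ (m' * n i)).2⟩ := rfl
        rw [h4, ClassGroup.mk0_eq_one_iff]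
        refine ⟨ε, ?_⟩
        rw [Submonoid.coe_finsetProd]
        exact h2.symm
      rw [map_prod] at h3
      have h5 : f (∏ i, (Multiplicative.ofAdd (Pi.single i (1 : ZMod (ℓ * m')) : Fin N → ZMod (ℓ * m'))) ^
          (m' * n i)) = f 1 := by
        rw [map_prod, map_one, ← h3]
        refine Finset.prod_congr rfl fun i _ => ?_
        rw [map_pow, map_pow, hacl]
      have h6 := hf h5
      have h7 : ∑ i, (m' * n i) • (Pi.single i (1 : ZMod (ℓ * m')) : Fin N → ZMod (ℓ * m')) = 0 := by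
        have h8 := congrArg Multiplicative.toAdd h6
        rw [toAdd_prod, toAdd_one] at h8
        exact h8
      have h9 := congrFun h7 i
      rw [Finset.sum_apply, Finset.sum_eq_single i (by
        intro j _ hj
        rw [Pi.smul_apply, Pi.single_eq_of_ne (Ne.symm hj), smul_zero]) (by simp)] at h9
      rw [Pi.smul_apply, Pi.single_eq_same, nsmul_eq_mul, mul_one, Pi.zero_apply,
        ZMod.natCast_eq_zero_iff, mul_comm ℓ m'] at h9
      have hm' : 0 < m' := by
        rcases Nat.eq_zero_or_pos m' with h | h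
        · subst h
          omega
        · exact h
      exact Nat.dvd_of_mul_dvd_mul_left hm' h9
    · have h1 := congrArg (fun I : Ideal (𝓞 k) => (normalizedFactors I).count (p i)) hid
      simp only [normalizedFactors_pow, Multiset.count_nsmul] at h1
      rw [cnt_prod (p i) (fun j => (a j : Ideal (𝓞 k))) ha0] at h1
      simp only [hcnt, mul_ite, mul_one, mul_zero, Finset.sum_ite_eq, Finset.mem_univ, if_true] at h1
      have h2 : ℓ ∣ m * n i := ⟨_, h1.symm⟩
      exact (hℓ.dvd_mul.1 h2).resolve_left hℓm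

end Pool.Agent.X288.UR
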